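import Pool.Agent.Y492.AL.NearT
import Pool.Agent.H31R3.Kes.Decay
import Pool.Agent.H12R2.Sep.Key1

/-! # The four-arm event beyond the correlation length -/

set_option maxHeartbeats 1000000

namespace Pool.Agent.Y492.AL

open H974 H12S H973N Finset

theorem ann_sub2 {n m : ℕ} (hn : 1 ≤ n) (hnm : n < m) :
    LRE (-m) m n m ⊆ annE (n - 1) m ∧ LRE (-m) m (-m) (-n) ⊆ annE (n - 1) m ∧
      TBE n m (-m) m ⊆ annE (n - 1) m ∧ TBE (-m) (-n) (-m) m ⊆ annE (n - 1) m := by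
  have h : (n:ℤ) < m := by exact_mod_cast hnm
  have h0 : (1:ℤ) ≤ n := by exact_mod_cast hn
  have hc : ((n - 1 : ℕ) : ℤ) = n - 1 := by omega
  unfold annE boxE
  rw [hc]
  refine ⟨?_, ?_, ?_, ?_⟩
  · rintro ⟨x, y, _ | _⟩ h8
    · simp only [mem_LRE_false, Finset.mem_sdiff, mem_RE_false] at h8 ⊢; omega
    · simp only [mem_LRE_true, Finset.mem_sdiff, mem_RE_true] at h8 ⊢; omega
  · rintro ⟨x, y, _ | _⟩ h8
    · simp only [mem_LRE_false, Finset.mem_sdiff, mem_RE_false] at h8 ⊢; omega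
    · simp only [mem_LRE_true, Finset.mem_sdiff, mem_RE_true] at h8 ⊢; omega
  · rintro ⟨x, y, _ | _⟩ h8
    · simp only [mem_TBE_false, Finset.mem_sdiff, mem_RE_false] at h8 ⊢; omega
    · simp only [mem_TBE_true, Finset.mem_sdiff, mem_RE_true] at h8 ⊢; omega
  · rintro ⟨x, y, _ | _⟩ h8
    · simp only [mem_TBE_false, Finset.mem_sdiff, mem_RE_false] at h8 ⊢; omega
    · simp only [mem_TBE_true, Finset.mem_sdiff, mem_RE_true] at h8 ⊢; omega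

theorem Circ_local {n m : ℕ} (hn : 1 ≤ n) (hnm : n < m) {S : Finset Edg} (hS : annE (n - 1) m ⊆ S)
    (F : Finset Edg) : Circ n m F ↔ Circ n m (F ∩ S) := by
  obtain ⟨h1, h2, h3, h4⟩ := ann_sub2 hn hnm
  unfold Circ
  rw [LRc_local (F := F) (h1.trans hS), LRc_local (F := F) (h2.trans hS),
    TBc_local (F := F) (h3.trans hS), TBc_local (F := F) (h4.trans hS)]

/-- The probability that there is no open circuit. -/
theorem pr_ncirc {p : ℝ} (h0 : 0 ≤ p) (h1 : p ≤ 1) {N : ℕ} (hN : 2 ≤ N) {S : Finset Edg}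
    (hS : annE (N - 1 - 1) (2 * N - 1) ⊆ S) :
    Pr (fun _ => p) S (fun F => ¬ Circ ((N - 1 : ℕ) : ℤ) ((2 * N - 1 : ℕ) : ℤ) F) ≤
      20 * eps p N := by
  have hN' : (2:ℤ) ≤ N := by exact_mod_cast hN
  have ok := okq h0 h1
  obtain ⟨n, hn⟩ : ∃ n : ℤ, n = (N:ℤ) := ⟨_, rfl⟩
  obtain ⟨s1, s2, s3, s4⟩ := ann_sub2 (n := N - 1) (m := 2 * N - 1) (by omega) (by omega)
  have c1 : ((N - 1 : ℕ) : ℤ) = n - 1 := by omega
  have c2 : ((2 * N - 1 : ℕ) : ℤ) = 2 * n - 1 := by omega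
  rw [c1, c2] at s1 s2 s3 s4 ⊢
  have e1 : Pr (fun _ => p) S (fun F => ¬ LRc (-(2 * n - 1)) (2 * n - 1) (n - 1) (2 * n - 1) F) =
      1 - hh p (4 * n - 2) n := by
    rw [Pr_not, pr_LRc p (s1.trans hS)]
    congr 2 <;> ring
  have e2 : Pr (fun _ => p) S (fun F => ¬ LRc (-(2 * n - 1)) (2 * n - 1) (-(2 * n - 1)) (-(n - 1)) F) =
      1 - hh p (4 * n - 2) n := by
    rw [Pr_not, pr_LRc p (s2.trans hS)]
    congr 2 <;> ring
  have e3 : Pr (fun _ => p) S (fun F => ¬ TBc (n - 1) (2 * n - 1) (-(2 * n - 1)) (2 * n - 1) F) =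
      1 - hh p (4 * n - 2) n := by
    rw [Pr_not, pr_TBc p (s3.trans hS)]
    congr 2 <;> ring
  have e4 : Pr (fun _ => p) S (fun F => ¬ TBc (-(2 * n - 1)) (-(n - 1)) (-(2 * n - 1)) (2 * n - 1) F) =
      1 - hh p (4 * n - 2) n := by
    rw [Pr_not, pr_TBc p (s4.trans hS)]
    congr 2 <;> ring
  have i1 : Pr (fun _ => p) S (fun F => ¬ Circ (n - 1) (2 * n - 1) F) ≤
      Pr (fun _ => p) S (fun F =>
      ((¬ LRc (-(2 * n - 1)) (2 * n - 1) (n - 1) (2 * n - 1) F ∨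
        ¬ LRc (-(2 * n - 1)) (2 * n - 1) (-(2 * n - 1)) (-(n - 1)) F)) ∨
      (¬ TBc (n - 1) (2 * n - 1) (-(2 * n - 1)) (2 * n - 1) F ∨
        ¬ TBc (-(2 * n - 1)) (-(n - 1)) (-(2 * n - 1)) (2 * n - 1) F)) := by
    apply Pr_mono ok
    intro F _ h
    unfold Circ at h
    tauto
  have i2 := Pr_or_le ok S (fun F => ¬ LRc (-(2 * n - 1)) (2 * n - 1) (n - 1) (2 * n - 1) F ∨
        ¬ LRc (-(2 * n - 1)) (2 * n - 1) (-(2 * n - 1)) (-(n - 1)) F)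
      (fun F => ¬ TBc (n - 1) (2 * n - 1) (-(2 * n - 1)) (2 * n - 1) F ∨
        ¬ TBc (-(2 * n - 1)) (-(n - 1)) (-(2 * n - 1)) (2 * n - 1) F)
  have i3 := Pr_or_le ok S (fun F => ¬ LRc (-(2 * n - 1)) (2 * n - 1) (n - 1) (2 * n - 1) F)
    (fun F => ¬ LRc (-(2 * n - 1)) (2 * n - 1) (-(2 * n - 1)) (-(n - 1)) F)
  have i4 := Pr_or_le ok S (fun F => ¬ TBc (n - 1) (2 * n - 1) (-(2 * n - 1)) (2 * n - 1) F)
    (fun F => ¬ TBc (-(2 * n - 1)) (-(n - 1)) (-(2 * n - 1)) (2 * n - 1) F)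
  rw [e1, e2] at i3
  rw [e3, e4] at i4
  have d2 : hh p (4 * n) (n - 1) ≤ hh p (4 * n - 2) n :=
    hh_mono h0 h1 (by omega) (by omega) (by omega)
  have d3 := long_cross h0 h1 hN
  rw [← hn] at d3
  linarith

theorem pr_ncirc_pow {p : ℝ} (h0 : 0 ≤ p) (h1 : p ≤ 1) {N : ℕ} (hN : 2 ≤ N)
    (he : eps p N ≤ 1/100) (j : ℕ) {S : Finset Edg}
    (hS : annE (2^j * N - 1 - 1) (2 * (2^j * N) - 1) ⊆ S) :
    Pr (fun _ => p) S (fun F => ¬ Circ ((2^j * N - 1 : ℕ) : ℤ) ((2 * (2^j * N) - 1 : ℕ) : ℤ) F) ≤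
      (1/4)^(2^j) := by
  have h2 : 2 ≤ 2^j * N := by
    calc 2 ≤ N := hN
      _ ≤ 2^j * N := Nat.le_mul_of_pos_left _ (by positivity)
  have h3 := pr_ncirc h0 h1 h2 hS
  have h4 := eps_nonneg (p := p) h0 h1 (2^j * N)
  have h5 := H31K.eps_pow2 (p := p) h0 h1 hN he j
  linarith

/-- Both ends of the edge are joined to the boundary of any smaller box. -/
theorem not_circ {F : Finset Edg} {b : Bool} {k R1 R2 : ℕ} (h1 : 2 ≤ R1) (h2 : R1 < R2)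
    (h3 : R2 ≤ k) (h : A4 (-k) k (-k) k (e0 b) ↑F) : ¬ Circ R1 R2 F := by
  intro hc
  have hR1 : (2:ℤ) ≤ R1 := by exact_mod_cast h1
  have hR2 : (R1:ℤ) < R2 := by exact_mod_cast h2
  have hk : (R2:ℤ) ≤ k := by exact_mod_cast h3
  have he0 : e0 b ∉ annE (R1 - 1) R2 := by
    unfold annE e0
    rw [Finset.mem_sdiff]
    rintro ⟨-, h⟩
    apply h
    unfold boxE
    cases b
    · rw [mem_RE_false]; omega
    · rw [mem_RE_true]; omega
  have hc' : Circ R1 R2 (F.erase (e0 b)) := by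
    have h5 := (Circ_local (by omega) h2 (Finset.Subset.refl (annE (R1 - 1) R2)) F).1 hc
    refine h5.mono ?_
    intro x hx
    rw [Finset.mem_inter] at hx
    rw [Finset.mem_erase]
    exact ⟨fun h => he0 (h ▸ hx.2), hx.1⟩
  obtain ⟨z, hz⟩ := circ_meet (by omega) hR2 hc'
  obtain ⟨⟨w, hw, hr⟩, ⟨w', hw', hr'⟩, hn⟩ := h
  have key : ∀ u w : Vtx, inR (-R1) R1 (-R1) R1 u → w ∈ bdR (-(k:ℤ)) k (-k) k →
      Reach ((↑F ∩ ↑(RE (-(k:ℤ)) k (-k) k)) \ {e0 b}) u w →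
      Reach (↑(F.erase (e0 b)) ∩ ↑(RE (-(R2:ℤ)) R2 (-R2) R2)) u z := by
    intro u w hu hw hr
    unfold bdR inR at hw
    simp only [Set.mem_setOf_eq] at hw
    unfold inR at hu
    obtain ⟨v, k1, k2, k3⟩ := first_exit (a := -(R2:ℤ)) (b := R2) (c := -(R2:ℤ)) (d := R2)
      (u := u) (by unfold inR; omega) hr (by omega)
    refine hz u v (by unfold inR; omega) k2 (k3.mono ?_)
    rintro x ⟨⟨⟨m1, -⟩, m2⟩, m3⟩
    refine ⟨?_, m3⟩
    rw [Finset.coe_erase]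
    exact ⟨m1, m2⟩
  have m1 := key (src (e0 b)) w (by unfold e0 inR; simp only [src_mk]; omega) hw hr
  have m2 := key (tgt (e0 b)) w' (by
    unfold e0 inR
    cases b
    · simp only [tgt_false]; omega
    · simp only [tgt_true]; omega) hw' hr'
  apply hn
  refine (m1.trans m2.symm).mono ?_
  rintro x ⟨m3, m4⟩
  rw [Finset.coe_erase] at m3
  refine ⟨⟨m3.1, ?_⟩, m3.2⟩
  exact (by exact_mod_cast RE_subset (by omega) (by omega) (by omega) (by omega) :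
    (↑(RE (-(R2:ℤ)) R2 (-R2) R2) : Set Edg) ⊆ ↑(RE (-(k:ℤ)) k (-k) k)) m4

theorem not_blk {F : Finset Edg} {b : Bool} {k R1 R2 : ℕ} (h2 : R1 < R2)
    (h3 : R2 ≤ k) (h : A4 (-k) k (-k) k (e0 b) ↑F) : ¬ Blk R1 R2 F := by
  have hR2 : (R1:ℤ) < R2 := by exact_mod_cast h2
  have hk : (R2:ℤ) ≤ k := by exact_mod_cast h3
  obtain ⟨⟨w, hw, hr⟩, -, -⟩ := h
  have hs : src (e0 b) = (0, 0) := rfl
  rw [hs] at hr
  refine not_blk_of_arm (v := w) (by positivity) hR2 (hr.mono ?_) ?_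
  · rintro x ⟨⟨m1, -⟩, -⟩
    exact m1
  · unfold bdR inR at hw
    simp only [Set.mem_setOf_eq] at hw
    omega

theorem a4b_indep {p : ℝ} (h0 : 0 ≤ p) (h1 : p ≤ 1) {L k : ℕ} (hL : 1 ≤ L) (hLk : L ≤ k) (b : Bool)
    {T : Finset Edg} (hT : T ⊆ boxE k) (hd : Disjoint (boxE L) T) {B : Finset Edg → Prop}
    (hB : ∀ F, B F ↔ B (F ∩ T)) (himp : ∀ F : Finset Edg, A4 (-k) k (-k) k (e0 b) ↑F → B F) {X : ℝ}
    (hX : Pr (fun _ => p) T B ≤ X) :
    a4b p k b ≤ a4b p L b * X := by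
  have ok := okq h0 h1
  have he : e0 b ∈ RE (-(L:ℤ)) L (-L) L := by
    unfold e0
    cases b
    · rw [mem_RE_false]; omega
    · rw [mem_RE_true]; omega
  have hLk' : (L:ℤ) ≤ k := by exact_mod_cast hLk
  have h2 : PQ p (boxE k) (fun F => A4 (-L) L (-L) L (e0 b) ↑F) = a4b p L b :=
    Pr_local (S' := boxE L) (boxE_mono hLk) (fun F _ => A4_inter (Finset.Subset.refl _))
  have h3 : Pr (fun _ => p) (boxE k) B = Pr (fun _ => p) T B := Pr_local hT (fun F _ => hB F)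
  have h4 := Pr_indep (p := fun _ => p) (boxE_mono hLk) hT hd
    (A := fun F : Finset Edg => A4 (-L) L (-L) L (e0 b) ↑F) (B := B)
    (fun F _ => A4_inter (Finset.Subset.refl _)) (fun F _ => hB F)
  calc a4b p k b ≤ Pr (fun _ => p) (boxE k)
        (fun F => A4 (-L) L (-L) L (e0 b) ↑F ∧ B F) := by
        unfold a4b
        apply Pr_mono ok
        intro F _ hF
        exact ⟨A4_sub (by omega) (by omega) (by omega) (by omega) he hF, himp F hF⟩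
    _ = a4b p L b * Pr (fun _ => p) T B := by
        rw [h4, h3]
        unfold PQ at h2
        rw [h2]
    _ ≤ _ := mul_le_mul_of_nonneg_left hX (a4b_nonneg h0 h1 _ _)

/-- Above the critical point. -/
theorem a4_far_sup {p : ℝ} (h0 : 0 ≤ p) (h1 : p ≤ 1) {N : ℕ} (hN : 2 ≤ N)
    (he : eps p N ≤ 1/100) {j : ℕ} (hj : 1 ≤ j) {L k : ℕ} (hL : 1 ≤ L) (hL2 : L + 2 ≤ 2^j * N)
    (hk : 2 * (2^j * N) ≤ k) : a4 p k ≤ a4 p L * (1/4)^(2^j) := by
  obtain ⟨M, hM⟩ : ∃ M : ℕ, M = 2^j * N := ⟨_, rfl⟩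
  have hM4 : 4 ≤ M := by
    rw [hM]
    calc 4 = 2^1 * 2 := rfl
      _ ≤ 2^j * N := Nat.mul_le_mul (Nat.pow_le_pow_right (by norm_num) hj) hN
  have h3 := pr_ncirc_pow h0 h1 hN he j (S := annE (2^j * N - 1 - 1) (2 * (2^j * N) - 1))
    (Finset.Subset.refl _)
  rw [← hM] at h3 hL2 hk
  have key : ∀ b, a4b p k b ≤ a4b p L b * (1/4)^(2^j) := by
    intro b
    refine a4b_indep h0 h1 hL (by omega) b (T := annE (M - 1 - 1) (2 * M - 1)) ?_ ?_
      (B := fun F => ¬ Circ ((M - 1 : ℕ) : ℤ) ((2 * M - 1 : ℕ) : ℤ) F) ?_ ?_ h3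
    · unfold annE
      exact Finset.sdiff_subset.trans (boxE_mono (by omega))
    · unfold annE
      apply Finset.disjoint_of_subset_left (boxE_mono (show L ≤ M - 1 - 1 by omega))
      exact Finset.disjoint_sdiff
    · intro F
      exact not_congr (Circ_local (by omega) (by omega) (Finset.Subset.refl _) F)
    · intro F hF
      exact not_circ (by omega) (by omega) (by omega) hF
  rw [a4_eq, a4_eq, add_mul]
  exact add_le_add (key true) (key false)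

/-- Below the critical point. -/
theorem a4_far_sub {p : ℝ} (h0 : 0 ≤ p) (h1 : p ≤ 1) {N : ℕ} (hN : 2 ≤ N) {j : ℕ} (hj : 1 ≤ j)
    (h3 : Pr (fun _ => p) (annE (2^j * N - 1) (2 * (2^j * N) - 1))
      (fun F => ¬ Blk ((2^j * N - 1 : ℕ) : ℤ) ((2 * (2^j * N) - 1 : ℕ) : ℤ) F) ≤ (1/4)^(2^j))
    {L k : ℕ} (hL : 1 ≤ L) (hL2 : L + 2 ≤ 2^j * N)
    (hk : 2 * (2^j * N) ≤ k) : a4 p k ≤ a4 p L * (1/4)^(2^j) := by
  obtain ⟨M, hM⟩ : ∃ M : ℕ, M = 2^j * N := ⟨_, rfl⟩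
  have hM4 : 4 ≤ M := by
    rw [hM]
    calc 4 = 2^1 * 2 := rfl
      _ ≤ 2^j * N := Nat.mul_le_mul (Nat.pow_le_pow_right (by norm_num) hj) hN
  rw [← hM] at h3 hL2 hk
  have key : ∀ b, a4b p k b ≤ a4b p L b * (1/4)^(2^j) := by
    intro b
    refine a4b_indep h0 h1 hL (by omega) b (T := annE (M - 1) (2 * M - 1)) ?_ ?_
      (B := fun F => ¬ Blk ((M - 1 : ℕ) : ℤ) ((2 * M - 1 : ℕ) : ℤ) F) ?_ ?_ h3
    · unfold annE
      exact Finset.sdiff_subset.trans (boxE_mono (by omega))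
    · unfold annE
      apply Finset.disjoint_of_subset_left (boxE_mono (show L ≤ M - 1 by omega))
      exact Finset.disjoint_sdiff
    · intro F
      exact not_congr (Blk_local (by omega) (Finset.Subset.refl _) F)
    · intro F hF
      exact not_blk (by omega) (by omega) hF
  rw [a4_eq, a4_eq, add_mul]
  exact add_le_add (key true) (key false)

end Pool.Agent.Y492.AL
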