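import Pool.Agent.Y492.AL.A4Far
import Pool.Agent.W424.NC.ArmUp

/-! # The uniform bound of the four-arm probabilities, and the window -/

set_option maxHeartbeats 1000000

namespace Pool.Agent.Y492.AL

open H974 H12S H973N Finset Pool.Agent.W424.NC

theorem win : S_WIN := by
  obtain ⟨κ, b, c, C, hκ, hb, hc, hC, h⟩ := nearS
  exact ⟨κ, b, hκ, hb, fun n hn q hq => (h n hn q hq).1⟩

/-- The four-arm event beyond the correlation length, both sides. -/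
theorem a4_far : ∃ E : ℝ, 1 ≤ E ∧ ∀ q : ℝ, 0 ≤ q → q ≤ 1 → q ≠ 1/2 → ∃ N : ℕ, 2 ≤ N ∧
    (N:ℝ) * |q - 1/2| ^ (4/3 : ℝ) ≤ E ∧ ∀ j : ℕ, 1 ≤ j → ∀ L k : ℕ, 1 ≤ L → L + 2 ≤ 2^j * N →
      2 * (2^j * N) ≤ k → a4 q k ≤ a4 q L * (1/4)^(2^j) := by
  obtain ⟨E, hE, hfar⟩ := farN
  refine ⟨E, hE, ?_⟩
  intro q h0 h1 hq
  rcases lt_or_gt_of_ne hq with h | h
  · obtain ⟨N, hN, hN1, -, he⟩ := hfar q h0 h
    refine ⟨N, hN, ?_, ?_⟩
    · rw [abs_of_neg (by linarith), show -(q - 1/2) = 1/2 - q by ring]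
      exact hN1
    · intro j hj L k hL hL2 hk
      exact a4_far_sub h0 h1 hN hj (pr_nblk_pow h0 h1 hN he j (Finset.Subset.refl _)) hL hL2 hk
  · obtain ⟨N, hN, hN1, -, he⟩ := hfar (1 - q) (by linarith) (by linarith)
    rw [show (1:ℝ) - (1 - q) = q by ring] at he
    refine ⟨N, hN, ?_, ?_⟩
    · rw [abs_of_pos (by linarith), show q - 1/2 = 1/2 - (1 - q) by ring]
      exact hN1
    · intro j hj L k hL hL2 hk
      exact a4_far_sup h0 h1 hN he hj hL hL2 hk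

theorem a4u : S_A4 := by
  obtain ⟨κ, b, c, C, hκ, hb, hc, hC, hnear⟩ := nearS
  obtain ⟨E, hE, hfar⟩ := a4_far
  have hE0 : 0 < E := by linarith
  obtain ⟨D, hD⟩ : ∃ D : ℝ, D = max 1 (2 * E * b ^ (-(4/3 : ℝ))) := ⟨_, rfl⟩
  have hD1 : 1 ≤ D := by rw [hD]; exact le_max_left _ _
  have hD0 : 2 * E * b ^ (-(4/3 : ℝ)) ≤ D := by rw [hD]; exact le_max_right _ _
  refine ⟨(C + 2) * (8 * D) ^ (5/4 : ℝ), by positivity, ?_⟩
  intro q h0 h1 k hk
  have hkr : (1:ℝ) ≤ k := by exact_mod_cast hk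
  have hk0 : (0:ℝ) < k := by linarith
  have h8 : 1 ≤ (8 * D) ^ (5/4 : ℝ) := Real.one_le_rpow (by linarith) (by norm_num)
  have hkp : 0 < (k:ℝ) ^ (-(5/4 : ℝ)) := by positivity
  by_cases hq : q = 1/2
  · have := ((hnear k hk q (by rw [hq, sub_self, abs_zero]; positivity)).2 k hk le_rfl).2
    refine this.trans ?_
    apply mul_le_mul_of_nonneg_right _ hkp.le
    nlinarith
  obtain ⟨N, hN, hNE, hf⟩ := hfar q h0 h1 hq
  obtain ⟨δ, hδ⟩ : ∃ δ : ℝ, δ = |q - 1/2| := ⟨_, rfl⟩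
  have hδ0 : 0 < δ := by
    rw [hδ]; exact abs_pos.mpr (sub_ne_zero.mpr hq)
  rw [← hδ] at hNE
  obtain ⟨n0, hn0⟩ : ∃ n0 : ℕ, n0 = ⌊(b / δ) ^ (4/3 : ℝ)⌋₊ := ⟨_, rfl⟩
  have hbd0 : 0 < b / δ := by positivity
  have hfl1 : (n0:ℝ) ≤ (b / δ) ^ (4/3 : ℝ) := by rw [hn0]; exact Nat.floor_le (by positivity)
  have hfl2 : (b / δ) ^ (4/3 : ℝ) < n0 + 1 := by rw [hn0]; exact Nat.lt_floor_add_one _
  obtain ⟨Ls, hLs⟩ : ∃ Ls : ℕ, Ls = max 1 n0 := ⟨_, rfl⟩
  have hLs1 : 1 ≤ Ls := by rw [hLs]; exact le_max_left _ _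
  -- the bound below the correlation length
  have hnr : ∀ L : ℕ, 1 ≤ L → L ≤ Ls → a4 q L ≤ (C + 2) * (L:ℝ) ^ (-(5/4 : ℝ)) := by
    intro L hL hLL
    have hLr : (1:ℝ) ≤ L := by exact_mod_cast hL
    have hL0 : (0:ℝ) < L := by linarith
    have hLp : 0 < (L:ℝ) ^ (-(5/4 : ℝ)) := by positivity
    rcases Nat.eq_zero_or_pos n0 with h | h
    · rw [h] at hLs
      have hL1 : L = 1 := by rw [hLs] at hLL; norm_num at hLL; omega
      rw [hL1]
      have := a4_le_two h0 h1 1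
      simp only [Nat.cast_one, Real.one_rpow, mul_one]
      linarith
    · have hLn : L ≤ n0 := by rw [hLs, max_eq_right (by omega)] at hLL; exact hLL
      have hn0r : (0:ℝ) < n0 := by exact_mod_cast h
      have h2 : |q - 1/2| ≤ b * (n0:ℝ) ^ (-(3/4 : ℝ)) := by
        rw [← hδ]
        have h3 : (n0:ℝ) ^ (3/4 : ℝ) ≤ b / δ := by
          calc (n0:ℝ) ^ (3/4 : ℝ) ≤ ((b / δ) ^ (4/3 : ℝ)) ^ (3/4 : ℝ) :=
                Real.rpow_le_rpow hn0r.le hfl1 (by norm_num)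
            _ = b / δ := by
                rw [← Real.rpow_mul hbd0.le]; norm_num
        rw [Real.rpow_neg hn0r.le, ← div_eq_mul_inv, le_div_iff₀ (by positivity)]
        rw [le_div_iff₀ hδ0] at h3
        linarith
      have h4 := ((hnear n0 h q h2).2 L hL hLn).2
      refine h4.trans ?_
      apply mul_le_mul_of_nonneg_right (by linarith) hLp.le
  -- the scale of the decay
  have hNL : (N:ℝ) ≤ D * Ls := by
    have hδp : 0 < δ ^ (4/3 : ℝ) := by positivity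
    have hbp : 0 < b ^ (4/3 : ℝ) := by positivity
    have h2 : (N:ℝ) ≤ E / δ ^ (4/3 : ℝ) := by rw [le_div_iff₀ hδp]; exact hNE
    have h3 : 1 / δ ^ (4/3 : ℝ) = b ^ (-(4/3 : ℝ)) * (b / δ) ^ (4/3 : ℝ) := by
      rw [Real.div_rpow hb.le hδ0.le, Real.rpow_neg hb.le]
      field_simp
    have h4 : (n0:ℝ) + 1 ≤ 2 * Ls := by
      have : n0 + 1 ≤ 2 * Ls := by
        have : n0 ≤ Ls := by rw [hLs]; exact le_max_right _ _
        omega
      exact_mod_cast this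
    calc (N:ℝ) ≤ E / δ ^ (4/3 : ℝ) := h2
      _ = E * (1 / δ ^ (4/3 : ℝ)) := by ring
      _ = E * (b ^ (-(4/3 : ℝ)) * (b / δ) ^ (4/3 : ℝ)) := by rw [h3]
      _ ≤ E * (b ^ (-(4/3 : ℝ)) * (2 * Ls)) := by
          apply mul_le_mul_of_nonneg_left _ hE0.le
          apply mul_le_mul_of_nonneg_left _ (by positivity)
          linarith
      _ = (2 * E * b ^ (-(4/3 : ℝ))) * Ls := by ring
      _ ≤ D * Ls := mul_le_mul_of_nonneg_right hD0 (by positivity)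
  have hNr : (2:ℝ) ≤ N := by exact_mod_cast hN
  have hLsr : (1:ℝ) ≤ Ls := by exact_mod_cast hLs1
  by_cases hkN : k ≤ 8 * N
  · obtain ⟨L, hL⟩ : ∃ L : ℕ, L = min k Ls := ⟨_, rfl⟩
    have hL1 : 1 ≤ L := by rw [hL]; exact le_min hk hLs1
    have h2 := a4_anti h0 h1 hL1 (show L ≤ k by rw [hL]; exact min_le_left _ _)
    have h3 := hnr L hL1 (by rw [hL]; exact min_le_right _ _)
    have h4 : (k:ℝ) ≤ (8 * D) * L := by
      have h5 : (k:ℝ) ≤ 8 * N := by exact_mod_cast hkN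
      rw [hL]
      rcases le_total k Ls with h | h
      · rw [min_eq_left h]; nlinarith
      · rw [min_eq_right h]
        nlinarith
    have h5 := rpow_cmp hk0 (by positivity) h4
    calc a4 q k ≤ a4 q L := h2
      _ ≤ (C + 2) * (L:ℝ) ^ (-(5/4 : ℝ)) := h3
      _ ≤ (C + 2) * ((8 * D) ^ (5/4 : ℝ) * (k:ℝ) ^ (-(5/4 : ℝ))) :=
          mul_le_mul_of_nonneg_left h5 (by linarith)
      _ = _ := by ring
  · push Not at hkN
    obtain ⟨j, hj⟩ : ∃ j : ℕ, j = Nat.log 2 (k / (2 * N)) := ⟨_, rfl⟩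
    have h2 : 4 ≤ k / (2 * N) := by
      rw [Nat.le_div_iff_mul_le (by omega)]; omega
    have h3 : 2^j ≤ k / (2 * N) := by rw [hj]; exact Nat.pow_log_le_self 2 (by omega)
    have h4 : k / (2 * N) < 2^(j+1) := by rw [hj]; exact Nat.lt_pow_succ_log_self (by norm_num) _
    have hj1 : 1 ≤ j := by
      rw [hj]
      exact (Nat.le_log_iff_pow_le (by norm_num) (by omega)).mpr (by omega)
    have h5 : 2^j * (2 * N) ≤ k := (Nat.le_div_iff_mul_le (by omega)).mp h3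
    have h6 : k < 2^(j+1) * (2 * N) := (Nat.div_lt_iff_lt_mul (by omega)).mp h4
    have hjN : 2 * N ≤ 2^j * N := by
      apply Nat.mul_le_mul_right
      calc 2 = 2^1 := rfl
        _ ≤ 2^j := Nat.pow_le_pow_right (by norm_num) hj1
    obtain ⟨L, hL⟩ : ∃ L : ℕ, L = min N Ls := ⟨_, rfl⟩
    have hL1 : 1 ≤ L := by rw [hL]; exact le_min (by omega) hLs1
    have hLN : L ≤ N := by rw [hL]; exact min_le_left _ _
    have h7 := hf j hj1 L k hL1 (by omega) (by rw [show 2 * (2^j * N) = 2^j * (2 * N) by ring]; exact h5)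
    have h8 := hnr L hL1 (by rw [hL]; exact min_le_right _ _)
    have hND : (N:ℝ) ≤ D * L := by
      rw [hL]
      rcases le_total N Ls with h | h
      · rw [min_eq_left h]; nlinarith
      · rw [min_eq_right h]; exact hNL
    obtain ⟨x, hx⟩ : ∃ x : ℝ, x = (2:ℝ)^j := ⟨_, rfl⟩
    have hx1 : 1 ≤ x := by rw [hx]; exact one_le_pow₀ (by norm_num)
    have hLr : (1:ℝ) ≤ L := by exact_mod_cast hL1
    have h9 : (k:ℝ) ≤ (4 * D * x) * L := by
      have h10 : (k:ℝ) ≤ 2^(j+1) * (2 * N) := by exact_mod_cast h6.le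
      rw [pow_succ, ← hx] at h10
      calc (k:ℝ) ≤ x * 2 * (2 * N) := h10
        _ = (4 * x) * N := by ring
        _ ≤ (4 * x) * (D * L) := mul_le_mul_of_nonneg_left hND (by positivity)
        _ = _ := by ring
    have h10 := rpow_cmp hk0 (by positivity) h9
    have h11 : (4 * D * x) ^ (5/4 : ℝ) * (1/4)^(2^j) ≤ (8 * D) ^ (5/4 : ℝ) := by
      rw [Real.mul_rpow (by positivity) (by positivity)]
      have h12 : (4 * D) ^ (5/4 : ℝ) ≤ (8 * D) ^ (5/4 : ℝ) :=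
        Real.rpow_le_rpow (by positivity) (by linarith) (by norm_num)
      have h13 : x ^ (5/4 : ℝ) * (1/4 : ℝ)^(2^j) ≤ 1 := by
        have h14 : x ^ (5/4 : ℝ) ≤ x ^ (2:ℝ) := Real.rpow_le_rpow_of_exponent_le hx1 (by norm_num)
        have h15 : x ≤ (2:ℝ)^(2^j) := by
          rw [hx]
          have : j ≤ 2^j := Nat.lt_two_pow_self.le
          exact pow_le_pow_right₀ (by norm_num) this
        have h16 : x ^ (2:ℝ) ≤ (4:ℝ)^(2^j) := by
          rw [Real.rpow_two]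
          calc x^2 ≤ ((2:ℝ)^(2^j))^2 := pow_le_pow_left₀ (by linarith) h15 2
            _ = (4:ℝ)^(2^j) := by rw [← pow_mul, mul_comm, pow_mul]; norm_num
        have h17 : (4:ℝ)^(2^j) * (1/4 : ℝ)^(2^j) = 1 := by
          rw [← mul_pow]; norm_num
        calc x ^ (5/4 : ℝ) * (1/4 : ℝ)^(2^j) ≤ (4:ℝ)^(2^j) * (1/4 : ℝ)^(2^j) :=
              mul_le_mul_of_nonneg_right (h14.trans h16) (by positivity)
          _ = 1 := h17
      calc (4 * D) ^ (5/4 : ℝ) * x ^ (5/4 : ℝ) * (1/4)^(2^j)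
          = (4 * D) ^ (5/4 : ℝ) * (x ^ (5/4 : ℝ) * (1/4)^(2^j)) := by ring
        _ ≤ (8 * D) ^ (5/4 : ℝ) * 1 := mul_le_mul h12 h13 (by positivity) (by positivity)
        _ = _ := mul_one _
    have hC2 : 0 < C + 2 := by linarith
    calc a4 q k ≤ a4 q L * (1/4)^(2^j) := h7
      _ ≤ ((C + 2) * (L:ℝ) ^ (-(5/4 : ℝ))) * (1/4)^(2^j) :=
          mul_le_mul_of_nonneg_right h8 (by positivity)
      _ ≤ ((C + 2) * ((4 * D * x) ^ (5/4 : ℝ) * (k:ℝ) ^ (-(5/4 : ℝ)))) * (1/4)^(2^j) := by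
          apply mul_le_mul_of_nonneg_right _ (by positivity)
          exact mul_le_mul_of_nonneg_left h10 hC2.le
      _ = (C + 2) * (((4 * D * x) ^ (5/4 : ℝ) * (1/4)^(2^j)) * (k:ℝ) ^ (-(5/4 : ℝ))) := by ring
      _ ≤ (C + 2) * ((8 * D) ^ (5/4 : ℝ) * (k:ℝ) ^ (-(5/4 : ℝ))) := by
          apply mul_le_mul_of_nonneg_left _ hC2.le
          exact mul_le_mul_of_nonneg_right h11 hkp.le
      _ = _ := by ring

end Pool.Agent.Y492.AL
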