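import Pool.Agent.Y492.AL.Loc

/-! # Near pairs around an isolated edge: conditioning on the ball around the isolated edge -/

namespace Pool.Agent.Y492.AL

open H974 H12S H973N Finset

/-- `cn c` for a configuration split into the inside and the outside of a ball around `c`. -/
theorem cn_split {c : Edg} {ρ : ℕ} (hρ : 1 ≤ ρ) {w F : Finset Edg}
    (hF : Disjoint F (blk (bp c) ρ)) :
    cn c (w ∪ F) ↔ CO {src c} {tgt c} ↑(w.erase c) F := by
  have hc : c ∉ F := fun h => Finset.disjoint_left.mp hF h (FPX.self_mem_blk hρ)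
  have e1 : (↑((w ∪ F).erase c) : Set Edg) = ↑F ∪ ↑(w.erase c) := by
    ext x
    simp only [Finset.coe_erase, Finset.coe_union, Set.mem_sdiff, Set.mem_union, Finset.mem_coe,
      Set.mem_singleton_iff]
    constructor
    · rintro ⟨h | h, h'⟩
      · exact Or.inr ⟨h, h'⟩
      · exact Or.inl h
    · rintro (h | ⟨h, h'⟩)
      · exact ⟨Or.inr h, fun hx => hc (hx ▸ h)⟩
      · exact ⟨Or.inl h, h'⟩
  unfold cn CO Cn
  rw [e1]
  simp

theorem SD_split {c a b : Edg} {ρ : ℕ} (hρ : 1 ≤ ρ) {w F : Finset Edg}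
    (hw : w ⊆ blk (bp c) ρ) (hF : Disjoint F (blk (bp c) ρ))
    (ha : a ∉ blk (bp c) ρ) (hb : b ∉ blk (bp c) ρ) :
    SD (cn c) a b (w ∪ F) ↔ SD (CO {src c} {tgt c} ↑(w.erase c)) a b F := by
  have haw : a ∉ w := fun h => ha (hw h)
  have hbw : b ∉ w := fun h => hb (hw h)
  have i1 : ∀ (x : Edg) (G : Finset Edg), insert x (w ∪ G) = w ∪ insert x G := by
    intro x G
    ext y
    simp only [Finset.mem_insert, Finset.mem_union]
    tauto
  have i2 : ∀ (x : Edg), x ∉ w → ∀ (G : Finset Edg), (w ∪ G).erase x = w ∪ G.erase x := by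
    intro x hx G
    ext y
    simp only [Finset.mem_erase, Finset.mem_union]
    constructor
    · rintro ⟨h, h' | h'⟩
      · exact Or.inl h'
      · exact Or.inr ⟨h, h'⟩
    · rintro (h | ⟨h, h'⟩)
      · exact ⟨fun hy => hx (hy ▸ h), Or.inl h⟩
      · exact ⟨h, Or.inr h'⟩
  have d1 : ∀ (x : Edg), x ∉ blk (bp c) ρ → ∀ G : Finset Edg, Disjoint G (blk (bp c) ρ) →
      Disjoint (insert x G) (blk (bp c) ρ) := by
    intro x hx G hG
    rw [Finset.disjoint_insert_left]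
    exact ⟨hx, hG⟩
  have d2 : ∀ (x : Edg) (G : Finset Edg), Disjoint G (blk (bp c) ρ) →
      Disjoint (G.erase x) (blk (bp c) ρ) := fun x G hG =>
    Finset.disjoint_of_subset_left (Finset.erase_subset _ _) hG
  unfold SD Pf
  simp only [i1, i2 a haw, i2 b hbw]
  rw [cn_split hρ (d1 a ha _ (d2 b _ hF)), cn_split hρ (d2 a _ (d2 b _ hF)),
    cn_split hρ (d1 a ha _ (d1 b hb _ hF)), cn_split hρ (d2 a _ (d1 b hb _ hF)),
    cn_split hρ (d1 b hb _ (d2 a _ hF)), cn_split hρ (d2 b _ (d2 a _ hF)),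
    cn_split hρ (d1 b hb _ (d1 a ha _ hF)), cn_split hρ (d2 b _ (d1 a ha _ hF))]

/-- The local event at the isolated edge depends only on the inside of the ball. -/
theorem SD_L4_c (hS : S_SYM) {c a b : Edg} {ρ : ℕ} (hρ : 1 ≤ ρ) {w F : Finset Edg}
    (hF : Disjoint F (blk (bp c) ρ)) (ha : (ρ:ℤ) < dst c a) (hb : (ρ:ℤ) < dst c b)
    (h : SD (cn c) a b (w ∪ F)) : L4 ρ c (↑w : Set Edg) := by
  have hca : c ≠ a := by
    rintro rfl
    rw [FPX.dst_self] at ha
    have : (1:ℤ) ≤ ρ := by exact_mod_cast hρ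
    omega
  have hL : ∀ F' : Finset Edg, (∀ y, y ≠ b → (y ∈ F' ↔ y ∈ w ∪ F)) → Pf (cn c) a F' →
      L4 ρ c (↑w : Set Edg) := by
    intro F' hF' hp
    refine (NP.L4_congr' ?_).1 (L4_of_Pf' hS hρ ha hca hp)
    intro y hy _
    rw [hF' y (fun hyb => notMem_blk hb (hyb ▸ hy)), Finset.mem_union]
    constructor
    · rintro (h | h)
      · exact h
      · exact absurd hy (Finset.disjoint_left.mp hF h)
    · exact Or.inl
  rcases h.1 with hp | hp
  · exact hL _ (fun y hy => by rw [Finset.mem_erase]; tauto) hp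
  · exact hL _ (fun y hy => by rw [Finset.mem_insert]; tauto) hp

/-- Conditioning on the ball around the isolated edge. -/
theorem cond_c (hS : S_SYM) {q : ℝ} (h0 : 0 ≤ q) (h1 : q ≤ 1) {U : Finset Edg} {c : Edg} {ρ : ℕ}
    (hρ : 1 ≤ ρ) (hU : blk (bp c) ρ ⊆ U) {ι : Type*} (T : Finset ι) (a b : ι → Edg) (v : ι → ℝ)
    (hv : ∀ i ∈ T, 0 ≤ v i)
    (ha : ∀ i ∈ T, v i ≠ 0 → (ρ:ℤ) < dst c (a i)) (hb : ∀ i ∈ T, v i ≠ 0 → (ρ:ℤ) < dst c (b i))
    {X : ℝ} (hX : ∀ w : Finset Edg, w ⊆ blk (bp c) ρ →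
      ∑ i ∈ T, v i * PQ q (U \ blk (bp c) ρ) (SD (CO {src c} {tgt c} ↑(w.erase c)) (a i) (b i)) ≤
        X) :
    ∑ i ∈ T, v i * PQ q U (SD (cn c) (a i) (b i)) ≤ a4 q ρ * X := by
  have hok := okc h0 h1
  set B := blk (bp c) ρ with hB
  have hUe : U = B ∪ (U \ B) := by rw [Finset.union_sdiff_of_subset hU]
  have hd : Disjoint B (U \ B) := Finset.disjoint_sdiff
  have step : ∀ i ∈ T, v i * PQ q U (SD (cn c) (a i) (b i)) ≤
      Ex (fun _ => q) B (fun w => ind (L4 ρ c (↑w : Set Edg)) *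
        (v i * PQ q (U \ B) (SD (CO {src c} {tgt c} ↑(w.erase c)) (a i) (b i)))) := by
    intro i hi
    by_cases hvi : v i = 0
    · rw [hvi, zero_mul]
      apply Ex_nonneg hok
      intro w _
      rw [zero_mul, mul_zero]
    have e1 : Ex (fun _ => q) B (fun w => ind (L4 ρ c (↑w : Set Edg)) *
        (v i * PQ q (U \ B) (SD (CO {src c} {tgt c} ↑(w.erase c)) (a i) (b i)))) =
        v i * Ex (fun _ => q) B (fun w => ind (L4 ρ c (↑w : Set Edg)) *
        PQ q (U \ B) (SD (CO {src c} {tgt c} ↑(w.erase c)) (a i) (b i))) := by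
      rw [← Ex_mul_left]
      apply Ex_congr
      intro w _
      ring
    rw [e1]
    apply mul_le_mul_of_nonneg_left _ (hv i hi)
    unfold PQ Pr
    conv_lhs => rw [hUe, Ex_union hd]
    apply Ex_mono hok
    intro w hw
    rw [← Ex_mul_left]
    apply Ex_mono hok
    intro F hF
    have hFB : Disjoint F B := Finset.disjoint_of_subset_left hF Finset.sdiff_disjoint
    have k1 := SD_split hρ hw hFB (notMem_blk (ha i hi hvi)) (notMem_blk (hb i hi hvi))
    rw [← ind_and]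
    apply ind_mono
    intro h
    exact ⟨SD_L4_c hS hρ hFB (ha i hi hvi) (hb i hi hvi) h, k1.1 h⟩
  calc ∑ i ∈ T, v i * PQ q U (SD (cn c) (a i) (b i))
      ≤ ∑ i ∈ T, Ex (fun _ => q) B (fun w => ind (L4 ρ c (↑w : Set Edg)) *
        (v i * PQ q (U \ B) (SD (CO {src c} {tgt c} ↑(w.erase c)) (a i) (b i)))) :=
        Finset.sum_le_sum step
    _ = Ex (fun _ => q) B (fun w => ∑ i ∈ T, ind (L4 ρ c (↑w : Set Edg)) *
        (v i * PQ q (U \ B) (SD (CO {src c} {tgt c} ↑(w.erase c)) (a i) (b i)))) :=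
        (Ex_sum _ _ _ _).symm
    _ ≤ Ex (fun _ => q) B (fun w => ind (L4 ρ c (↑w : Set Edg)) * X) := by
        apply Ex_mono hok
        intro w hw
        rw [← Finset.mul_sum]
        exact mul_le_mul_of_nonneg_left (hX w hw) (ind_nonneg _)
    _ = PQ q B (fun w => L4 ρ c (↑w : Set Edg)) * X := by
        rw [Ex_mul_right]
        rfl
    _ ≤ a4 q ρ * X := by
        apply mul_le_mul_of_nonneg_right (pr_L4 h0 h1 (Finset.Subset.refl _))
        refine le_trans ?_ (hX ∅ (Finset.empty_subset _))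
        exact Finset.sum_nonneg fun i hi => mul_nonneg (hv i hi) (Pr_nonneg hok _ _)

end Pool.Agent.Y492.AL
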