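import Pool.Agent.Y492.AL.NearC

/-! # The triples with an edge near the boundary of the large box -/

set_option maxHeartbeats 1000000

namespace Pool.Agent.Y492.AL

open H974 H12S H973N Finset

/-- Opening one edge. -/
theorem fin_insert {q : ℝ} (h0 : 0 ≤ q) (h1 : q ≤ 1) (S : Finset Edg) (f : Edg)
    (A : Finset Edg → Prop) : q * PQ q S (fun F => A (insert f F)) ≤ PQ q S A ∨ f ∉ S := by
  by_cases hf : f ∈ S
  swap
  · exact Or.inr hf
  left
  have hok := okc h0 h1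
  have hS : S = insert f (S.erase f) := (Finset.insert_erase hf).symm
  have hn : f ∉ S.erase f := Finset.notMem_erase f S
  unfold PQ Pr
  rw [hS, Ex_insert _ hn, Ex_insert _ hn]
  have e1 : (fun F : Finset Edg => ind (A (insert f (insert f F)))) =
      fun F => ind (A (insert f F)) := by
    funext F; rw [Finset.insert_idem]
  rw [e1]
  have h2 : 0 ≤ Ex (fun _ => q) (S.erase f) (fun F => ind (A F)) :=
    Ex_nonneg hok (fun _ _ => ind_nonneg _)
  have h3 : 0 ≤ (1 - q) * Ex (fun _ => q) (S.erase f) (fun F => ind (A F)) :=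
    mul_nonneg (by linarith) h2
  calc q * (q * Ex (fun _ => q) (S.erase f) (fun F => ind (A (insert f F))) +
        (1 - q) * Ex (fun _ => q) (S.erase f) (fun F => ind (A (insert f F))))
      = q * Ex (fun _ => q) (S.erase f) (fun F => ind (A (insert f F))) := by ring
    _ ≤ _ := by linarith

/-- Closing one edge. -/
theorem fin_erase {q : ℝ} (h0 : 0 ≤ q) (h1 : q ≤ 1) (S : Finset Edg) (f : Edg)
    (A : Finset Edg → Prop) : (1 - q) * PQ q S (fun F => A (F.erase f)) ≤ PQ q S A ∨ f ∉ S := by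
  by_cases hf : f ∈ S
  swap
  · exact Or.inr hf
  left
  have hok := okc h0 h1
  have hS : S = insert f (S.erase f) := (Finset.insert_erase hf).symm
  have hn : f ∉ S.erase f := Finset.notMem_erase f S
  unfold PQ Pr
  rw [hS, Ex_insert _ hn, Ex_insert _ hn]
  have e1 : Ex (fun _ => q) (S.erase f) (fun F => ind (A ((insert f F).erase f))) =
      Ex (fun _ => q) (S.erase f) (fun F => ind (A F)) := by
    apply Ex_congr
    intro F hF
    rw [Finset.erase_insert (fun h => hn (hF h))]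
  have e2 : Ex (fun _ => q) (S.erase f) (fun F => ind (A (F.erase f))) =
      Ex (fun _ => q) (S.erase f) (fun F => ind (A F)) := by
    apply Ex_congr
    intro F hF
    rw [Finset.erase_eq_of_notMem (fun h => hn (hF h))]
  rw [e1, e2]
  have h2 : 0 ≤ Ex (fun _ => q) (S.erase f) (fun F => ind (A (insert f F))) :=
    Ex_nonneg hok (fun _ _ => ind_nonneg _)
  have h3 : 0 ≤ q * Ex (fun _ => q) (S.erase f) (fun F => ind (A (insert f F))) :=
    mul_nonneg h0 h2
  calc (1 - q) * (q * Ex (fun _ => q) (S.erase f) (fun F => ind (A F)) +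
        (1 - q) * Ex (fun _ => q) (S.erase f) (fun F => ind (A F)))
      = (1 - q) * Ex (fun _ => q) (S.erase f) (fun F => ind (A F)) := by ring
    _ ≤ _ := by linarith

/-- An event which holds after the change of one edge. -/
theorem fin_or {q : ℝ} (h0 : 1/4 ≤ q) (h1 : q ≤ 3/4) {S : Finset Edg} {f : Edg} (hf : f ∈ S)
    (A : Finset Edg → Prop) :
    PQ q S (fun F => A (F.erase f) ∨ A (insert f F)) ≤ 8 * PQ q S A := by
  have h0' : 0 ≤ q := by linarith
  have h1' : q ≤ 1 := by linarith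
  have hok := okc h0' h1'
  have k1 := (fin_erase h0' h1' S f A).resolve_right (fun h => h hf)
  have k2 := (fin_insert h0' h1' S f A).resolve_right (fun h => h hf)
  have k3 := Pr_or_le hok S (fun F => A (F.erase f)) (fun F => A (insert f F))
  have n1 : 0 ≤ PQ q S (fun F => A (F.erase f)) := Pr_nonneg hok _ _
  have n2 : 0 ≤ PQ q S (fun F => A (insert f F)) := Pr_nonneg hok _ _
  have e1 : 1/4 * PQ q S (fun F => A (F.erase f)) ≤ PQ q S A :=
    le_trans (mul_le_mul_of_nonneg_right (by linarith) n1) k1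
  have e2 : 1/4 * PQ q S (fun F => A (insert f F)) ≤ PQ q S A :=
    le_trans (mul_le_mul_of_nonneg_right h0 n2) k2
  change PQ q S (fun F => A (F.erase f) ∨ A (insert f F)) ≤ _ at k3
  linarith

theorem SD_far (hS : S_SYM) {q : ℝ} (h0 : 1/4 ≤ q) (h1 : q ≤ 3/4) {S : Finset Edg}
    {e f g : Edg} {r r' : ℕ} (hr : 1 ≤ r) (hr' : 1 ≤ r') (hf : f ∈ S)
    (he : blk (bp e) r ⊆ S) (hg : blk (bp g) r' ⊆ S) (h : (r:ℤ) + r' < dst e g) :
    PQ q S (SD (cn e) f g) ≤ 8 * (a4 q r * a4 q r') := by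
  have h0' : 0 ≤ q := by linarith
  have h1' : q ≤ 1 := by linarith
  have hok := okc h0' h1'
  have hne : e ≠ g := by
    rintro rfl
    rw [FPX.dst_self] at h
    have : (1:ℤ) ≤ r := by exact_mod_cast hr
    omega
  have hrz : (1:ℤ) ≤ r := by exact_mod_cast hr
  have hrz' : (1:ℤ) ≤ r' := by exact_mod_cast hr'
  have step : PQ q S (SD (cn e) f g) ≤ PQ q S (fun F =>
      (fun F : Finset Edg => L4 r e (↑F : Set Edg) ∧ L4 r' g (↑F : Set Edg)) (F.erase f) ∨
      (fun F : Finset Edg => L4 r e (↑F : Set Edg) ∧ L4 r' g (↑F : Set Edg)) (insert f F)) := by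
    apply Pr_mono hok
    intro F _ hF
    rcases hF.2.1 with hp | hp
    · left
      exact ⟨L4_of_Pf' hS hr (by linarith) hne hp, L4_of_Pf hr' (by linarith) hne hp⟩
    · right
      exact ⟨L4_of_Pf' hS hr (by linarith) hne hp, L4_of_Pf hr' (by linarith) hne hp⟩
  refine step.trans ((fin_or h0 h1 hf
    (fun F : Finset Edg => L4 r e (↑F : Set Edg) ∧ L4 r' g (↑F : Set Edg))).trans ?_)
  exact mul_le_mul_of_nonneg_left (two_L4 h0' h1' he hg h) (by norm_num)

theorem SD_far' (hS : S_SYM) {q : ℝ} (h0 : 1/4 ≤ q) (h1 : q ≤ 3/4) {S : Finset Edg}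
    {e f g : Edg} {r : ℕ} (hr : 1 ≤ r) (hf : f ∈ S)
    (he : blk (bp e) r ⊆ S) (h : (r:ℤ) < dst e g) :
    PQ q S (SD (cn e) f g) ≤ 8 * a4 q r := by
  have h0' : 0 ≤ q := by linarith
  have h1' : q ≤ 1 := by linarith
  have hok := okc h0' h1'
  have hne : e ≠ g := by
    rintro rfl
    rw [FPX.dst_self] at h
    have : (1:ℤ) ≤ r := by exact_mod_cast hr
    omega
  have step : PQ q S (SD (cn e) f g) ≤ PQ q S (fun F =>
      (fun F : Finset Edg => L4 r e (↑F : Set Edg)) (F.erase f) ∨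
      (fun F : Finset Edg => L4 r e (↑F : Set Edg)) (insert f F)) := by
    apply Pr_mono hok
    intro F _ hF
    rcases hF.2.1 with hp | hp
    · left
      exact L4_of_Pf' hS hr h hne hp
    · right
      exact L4_of_Pf' hS hr h hne hp
  refine step.trans ((fin_or h0 h1 hf (fun F : Finset Edg => L4 r e (↑F : Set Edg))).trans ?_)
  exact mul_le_mul_of_nonneg_left (pr_L4 h0' h1' he) (by norm_num)

/-! ### the sum over the distance to the boundary -/

/-- distance to the boundary -/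
def dlb (N : ℕ) (g : Edg) : ℕ := N - max g.1.natAbs g.2.1.natAbs

theorem sum_pow (n : ℕ) : ∑ i ∈ range n, ((i:ℝ) + 1) ^ (-(5/4 : ℝ)) ≤
    ∑' i : ℕ, ((i:ℝ) + 1) ^ (-(5/4 : ℝ)) := by
  apply Summable.sum_le_tsum
  · intro i _; positivity
  · have := (Real.summable_nat_rpow (p := -(5/4 : ℝ))).mpr (by norm_num)
    have h2 := (summable_nat_add_iff 1).mpr this
    refine h2.congr ?_
    intro i
    push_cast
    rfl

theorem bd_sum : ∃ K : ℝ, 0 < K ∧ ∀ N : ℕ,
    ∑ g ∈ boxE N, ((dlb N g : ℝ) + 1) ^ (-(5/4 : ℝ)) ≤ K * (2 * N + 1) := by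
  classical
  obtain ⟨K0, hK0⟩ : ∃ K0 : ℝ, K0 = ∑' i : ℕ, ((i:ℝ) + 1) ^ (-(5/4 : ℝ)) := ⟨_, rfl⟩
  have hK0n : 0 ≤ K0 := by
    rw [hK0]; exact tsum_nonneg fun i => by positivity
  refine ⟨8 * K0 + 1, by linarith, ?_⟩
  intro N
  obtain ⟨ψ, hψ⟩ : ∃ ψ : ℤ → ℝ, ψ = fun x => ((N - x.natAbs : ℕ) + 1 : ℝ) ^ (-(5/4 : ℝ)) := ⟨_, rfl⟩
  have hψ0 : ∀ x, 0 ≤ ψ x := fun x => by rw [hψ]; positivity
  have h1 : ∀ g : Edg, ((dlb N g : ℝ) + 1) ^ (-(5/4 : ℝ)) ≤ ψ g.1 + ψ g.2.1 := by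
    intro g
    unfold dlb
    rcases le_total g.1.natAbs g.2.1.natAbs with h | h
    · rw [max_eq_right h]
      have : ψ g.2.1 = ((N - g.2.1.natAbs : ℕ) + 1 : ℝ) ^ (-(5/4 : ℝ)) := by rw [hψ]
      rw [← this]
      linarith [hψ0 g.1]
    · rw [max_eq_left h]
      have : ψ g.1 = ((N - g.1.natAbs : ℕ) + 1 : ℝ) ^ (-(5/4 : ℝ)) := by rw [hψ]
      rw [← this]
      linarith [hψ0 g.2.1]
  have hsub : boxE N ⊆ (Finset.Icc (-(N:ℤ)) N) ×ˢ ((Finset.Icc (-(N:ℤ)) N) ×ˢ (Finset.univ : Finset Bool)) := by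
    intro g hg
    unfold boxE RE at hg
    exact (Finset.mem_filter.mp hg).1
  have h2 : ∑ x ∈ Finset.Icc (-(N:ℤ)) N, ψ x ≤ 2 * K0 := by
    have e1 : ∀ x ∈ Finset.Icc (-(N:ℤ)) N, ψ x ≤
        (((((N:ℤ) - x).toNat : ℕ) : ℝ) + 1) ^ (-(5/4 : ℝ)) + (((((N:ℤ) + x).toNat : ℕ) : ℝ) + 1) ^ (-(5/4 : ℝ)) := by
      intro x hx
      rw [Finset.mem_Icc] at hx
      rcases le_total 0 x with h | h
      · have : (N - x.natAbs : ℕ) = ((N:ℤ) - x).toNat := by omega
        rw [hψ]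
        simp only
        rw [this]
        have : 0 ≤ (((((N:ℤ) + x).toNat : ℕ) : ℝ) + 1) ^ (-(5/4 : ℝ)) := by positivity
        linarith
      · have : (N - x.natAbs : ℕ) = ((N:ℤ) + x).toNat := by omega
        rw [hψ]
        simp only
        rw [this]
        have : 0 ≤ (((((N:ℤ) - x).toNat : ℕ) : ℝ) + 1) ^ (-(5/4 : ℝ)) := by positivity
        linarith
    refine (Finset.sum_le_sum e1).trans ?_
    rw [Finset.sum_add_distrib]
    have e2 : ∑ x ∈ Finset.Icc (-(N:ℤ)) N, (((((N:ℤ) - x).toNat : ℕ) : ℝ) + 1) ^ (-(5/4 : ℝ)) =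
        ∑ i ∈ range (2 * N + 1), ((i:ℝ) + 1) ^ (-(5/4 : ℝ)) := by
      apply Finset.sum_bij (fun x _ => ((N:ℤ) - x).toNat)
      · intro x hx; rw [Finset.mem_Icc] at hx; rw [Finset.mem_range]; omega
      · intro x hx y hy h; rw [Finset.mem_Icc] at hx hy; omega
      · intro i hi; rw [Finset.mem_range] at hi
        exact ⟨(N:ℤ) - i, by rw [Finset.mem_Icc]; omega, by omega⟩
      · intro x hx; rfl
    have e3 : ∑ x ∈ Finset.Icc (-(N:ℤ)) N, (((((N:ℤ) + x).toNat : ℕ) : ℝ) + 1) ^ (-(5/4 : ℝ)) =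
        ∑ i ∈ range (2 * N + 1), ((i:ℝ) + 1) ^ (-(5/4 : ℝ)) := by
      apply Finset.sum_bij (fun x _ => ((N:ℤ) + x).toNat)
      · intro x hx; rw [Finset.mem_Icc] at hx; rw [Finset.mem_range]; omega
      · intro x hx y hy h; rw [Finset.mem_Icc] at hx hy; omega
      · intro i hi; rw [Finset.mem_range] at hi
        exact ⟨(i:ℤ) - N, by rw [Finset.mem_Icc]; omega, by omega⟩
      · intro x hx; rfl
    rw [e2, e3]
    have := sum_pow (2 * N + 1)
    rw [← hK0] at this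
    linarith
  have hcard : ((Finset.Icc (-(N:ℤ)) N).card : ℝ) = 2 * N + 1 := by
    rw [Int.card_Icc]
    have : ((N:ℤ) + 1 - -(N:ℤ)).toNat = 2 * N + 1 := by omega
    rw [this]; push_cast; ring
  calc ∑ g ∈ boxE N, ((dlb N g : ℝ) + 1) ^ (-(5/4 : ℝ))
      ≤ ∑ g ∈ boxE N, (ψ g.1 + ψ g.2.1) := Finset.sum_le_sum fun g _ => h1 g
    _ ≤ ∑ g ∈ (Finset.Icc (-(N:ℤ)) N) ×ˢ ((Finset.Icc (-(N:ℤ)) N) ×ˢ (Finset.univ : Finset Bool)),
        (ψ g.1 + ψ g.2.1) := Finset.sum_le_sum_of_subset_of_nonneg hsub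
          (fun g _ _ => add_nonneg (hψ0 _) (hψ0 _))
    _ = 4 * (2 * N + 1) * ∑ x ∈ Finset.Icc (-(N:ℤ)) N, ψ x := by
        rw [Finset.sum_product]
        simp only [Finset.sum_product, Finset.sum_add_distrib, Finset.sum_const,
          Finset.card_univ, Fintype.card_bool, nsmul_eq_mul, ← Finset.mul_sum,
          Finset.card_product, Nat.cast_mul]
        rw [hcard]
        push_cast
        ring
    _ ≤ 4 * (2 * N + 1) * (2 * K0) := mul_le_mul_of_nonneg_left h2 (by positivity)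
    _ ≤ (8 * K0 + 1) * (2 * N + 1) := by
        have : (0:ℝ) ≤ 2 * N + 1 := by positivity
        nlinarith

end Pool.Agent.Y492.AL
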