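import Pool.Agent.Y492.AL.Far
import Pool.Agent.H974R2.Hyb

/-! # The sum over the triples with an edge near the boundary of the large box -/

set_option maxHeartbeats 1000000

namespace Pool.Agent.Y492.AL

open H974 H12S H973N Finset

theorem mem_box {n : ℕ} {e : Edg} (h : e ∈ boxE n) :
    (-(n:ℤ) ≤ e.1 ∧ e.1 ≤ n) ∧ (-(n:ℤ) ≤ e.2.1 ∧ e.2.1 ≤ n) := by
  obtain ⟨x, y, b⟩ := e
  unfold boxE at h
  cases b
  · rw [mem_RE_false] at h; simp only []; omega
  · rw [mem_RE_true] at h; simp only []; omega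

theorem boxE_PP {m : ℕ} {e : Edg} (he : e ∈ boxE m) : e ∈ PP m := by
  have h1 := mem_box he
  unfold PP
  rw [Finset.mem_filter]
  refine ⟨RE_subset (by push_cast; omega) (by push_cast; omega) (by push_cast; omega)
    (by push_cast; omega) he, ?_, ?_⟩ <;> rw [abs_le] <;> constructor <;> omega

theorem rpow_cmp {x y L : ℝ} (hx : 0 < x) (hL : 0 < L) (h : x ≤ L * y) :
    y ^ (-(5/4 : ℝ)) ≤ L ^ (5/4 : ℝ) * x ^ (-(5/4 : ℝ)) := by
  have hy : 0 < y := by
    by_contra hcon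
    push Not at hcon
    nlinarith
  have h1 : (x / L) ≤ y := by rw [div_le_iff₀ hL]; linarith
  have h2 : y ^ (-(5/4 : ℝ)) ≤ (x / L) ^ (-(5/4 : ℝ)) :=
    Real.rpow_le_rpow_of_nonpos (by positivity) h1 (by norm_num)
  refine h2.trans (le_of_eq ?_)
  rw [Real.div_rpow hx.le hL.le, Real.rpow_neg hL.le, div_eq_mul_inv, inv_inv, mul_comm]

/-- A single triple with a far edge. -/
theorem far_one (hS : S_SYM) {C : ℝ} (hC : 0 < C) (hA : ∀ q : ℝ, 0 ≤ q → q ≤ 1 → ∀ k : ℕ, 1 ≤ k →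
    a4 q k ≤ C * (k:ℝ) ^ (-(5/4 : ℝ))) {q : ℝ} (h0 : 1/4 ≤ q) (h1 : q ≤ 3/4) {m : ℕ} (hm : 2 ≤ m)
    {e f g : Edg} (he : e ∈ boxE m) (hf : f ∈ boxE (4 * m)) (hg : g ∈ boxE (4 * m) \ PP m) :
    PQ q (boxE (4 * m)) (SD (cn e) f g) ≤ (8 * (C * (6:ℝ) ^ (5/4 : ℝ)) +
      8 * (C * (6:ℝ) ^ (5/4 : ℝ)) ^ 2) *
      ((m:ℝ) ^ (-(5/4 : ℝ)) * ((dlb (4 * m) g : ℝ) + 1) ^ (-(5/4 : ℝ))) := by
  have h0' : 0 ≤ q := by linarith
  have h1' : q ≤ 1 := by linarith
  have hmr : (2:ℝ) ≤ m := by exact_mod_cast hm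
  rw [Finset.mem_sdiff] at hg
  obtain ⟨hg1, hg2⟩ := hg
  have heP := boxE_PP he
  have hbe : blk (bp e) (m / 2) ⊆ boxE (4 * m) := PP_blk heP (by omega)
  have hgb := mem_box hg1
  have heb := mem_box he
  have hgm : (2 * m : ℤ) < max |g.1| |g.2.1| := by
    by_contra hcon
    push Not at hcon
    apply hg2
    unfold PP
    rw [Finset.mem_filter]
    exact ⟨hg1, (le_max_left _ _).trans hcon, (le_max_right _ _).trans hcon⟩
  have hdst : (m:ℤ) < dst e g := by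
    unfold dst
    rw [lt_max_iff] at hgm ⊢
    rcases hgm with h | h
    · left
      rw [lt_abs] at h ⊢
      omega
    · right
      rw [lt_abs] at h ⊢
      omega
  have hdl : dlb (4 * m) g + 1 ≤ 2 * m := by
    unfold dlb
    have : 2 * m < max g.1.natAbs g.2.1.natAbs := by
      rw [lt_max_iff] at hgm ⊢
      rcases hgm with h | h
      · left; rw [lt_abs] at h; omega
      · right; rw [lt_abs] at h; omega
    omega
  obtain ⟨D, hD⟩ : ∃ D, D = dlb (4 * m) g := ⟨_, rfl⟩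
  rw [← hD] at hdl ⊢
  obtain ⟨K, hK⟩ : ∃ K : ℝ, K = C * (6:ℝ) ^ (5/4 : ℝ) := ⟨_, rfl⟩
  have hK0 : 0 < K := by rw [hK]; positivity
  rw [← hK]
  have hm2 : 1 ≤ m / 2 := by omega
  have hae : a4 q (m / 2) ≤ K * (m:ℝ) ^ (-(5/4 : ℝ)) := by
    refine (hA q h0' h1' (m / 2) hm2).trans ?_
    rw [hK, mul_assoc]
    refine mul_le_mul_of_nonneg_left (rpow_cmp (by linarith) (by norm_num) ?_) hC.le
    have : m ≤ 6 * (m / 2) := by omega
    exact_mod_cast this
  have hpm : 0 < (m:ℝ) ^ (-(5/4 : ℝ)) := by positivity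
  have hpD : 0 < ((D:ℝ) + 1) ^ (-(5/4 : ℝ)) := by positivity
  rcases Nat.eq_zero_or_pos D with hD0 | hD0
  · have := SD_far' hS h0 h1 hm2 hf hbe (g := g) (by
      have : ((m / 2 : ℕ) : ℤ) ≤ m := by omega
      omega)
    rw [hD0]
    simp only [Nat.cast_zero, zero_add, Real.one_rpow, mul_one]
    nlinarith [mul_pos (pow_pos hK0 2) hpm]
  · obtain ⟨r, hr⟩ : ∃ r, r = min D (m / 2) := ⟨_, rfl⟩
    have hr1 : 1 ≤ r := by rw [hr]; exact le_min hD0 hm2
    have hbg : blk (bp g) r ⊆ boxE (4 * m) := by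
      have hrD : r ≤ D := by rw [hr]; exact min_le_left _ _
      have h3 : g.1.natAbs + r ≤ 4 * m ∧ g.2.1.natAbs + r ≤ 4 * m := by
        have h4 : g.1.natAbs ≤ max g.1.natAbs g.2.1.natAbs := le_max_left _ _
        have h5 : g.2.1.natAbs ≤ max g.1.natAbs g.2.1.natAbs := le_max_right _ _
        unfold dlb at hD
        omega
      unfold blk bp boxE
      apply RE_subset <;> push_cast <;> omega
    have h2 := SD_far hS h0 h1 hm2 hr1 hf hbe hbg (g := g) (by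
      have : r ≤ m / 2 := by rw [hr]; exact min_le_right _ _
      omega)
    have har : a4 q r ≤ K * ((D:ℝ) + 1) ^ (-(5/4 : ℝ)) := by
      refine (hA q h0' h1' r hr1).trans ?_
      rw [hK, mul_assoc]
      refine mul_le_mul_of_nonneg_left (rpow_cmp (by positivity) (by norm_num) ?_) hC.le
      have : D + 1 ≤ 6 * r := by
        rw [hr]
        rcases le_total D (m / 2) with h | h
        · rw [min_eq_left h]; omega
        · rw [min_eq_right h]; omega
      exact_mod_cast this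
    have hn := a4_nn h0' h1' r
    have hn2 := a4_nn h0' h1' (m / 2)
    calc PQ q (boxE (4 * m)) (SD (cn e) f g) ≤ 8 * (a4 q (m / 2) * a4 q r) := h2
      _ ≤ 8 * ((K * (m:ℝ) ^ (-(5/4 : ℝ))) * (K * ((D:ℝ) + 1) ^ (-(5/4 : ℝ)))) := by
          apply mul_le_mul_of_nonneg_left _ (by norm_num)
          exact mul_le_mul hae har hn (by positivity)
      _ ≤ _ := by
          have : 0 ≤ K * ((m:ℝ) ^ (-(5/4 : ℝ)) * ((D:ℝ) + 1) ^ (-(5/4 : ℝ))) := by positivity
          nlinarith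

theorem far_sum (hS : S_SYM) (hA : S_A4) : ∃ C : ℝ, 0 < C ∧ ∀ q : ℝ, 1/4 ≤ q → q ≤ 3/4 →
    ∀ m R : ℕ, 1 ≤ R → R ≤ m →
    ∑ e ∈ boxE m, ∑ f ∈ (boxE (4 * m)).filter (fun f => f ≠ e ∧ dst e f ≤ R),
      ∑ g ∈ boxE (4 * m) \ PP m, PQ q (boxE (4 * m)) (SD (cn e) f g) ≤
        C * (m:ℝ)^2 * ((R:ℝ)^2 * (m:ℝ) ^ (-(1/4 : ℝ))) := by
  obtain ⟨C, hC, hA⟩ := hA
  obtain ⟨K, hK, hbd⟩ := bd_sum
  obtain ⟨L, hL⟩ : ∃ L : ℝ, L = 8 * (C * (6:ℝ) ^ (5/4 : ℝ)) +
      8 * (C * (6:ℝ) ^ (5/4 : ℝ)) ^ 2 := ⟨_, rfl⟩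
  have hL0 : 0 < L := by rw [hL]; positivity
  refine ⟨18 * (162 * (L * (K * 9))) + 100000000, by positivity, ?_⟩
  intro q h0 h1 m R hR hRm
  have h0' : 0 ≤ q := by linarith
  have h1' : q ≤ 1 := by linarith
  have hok := okc h0' h1'
  have hRr : (1:ℝ) ≤ R := by exact_mod_cast hR
  have hmr : (1:ℝ) ≤ m := by exact_mod_cast hR.trans hRm
  rcases Nat.lt_or_ge m 2 with hm | hm
  · have hm1 : m = 1 := by omega
    have hR1 : R = 1 := by omega
    subst hm1 hR1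
    have c1 : ((boxE 1).card : ℝ) ≤ 18 := by
      have := card_boxE 1
      exact_mod_cast this
    have c4 : ((boxE (4 * 1)).card : ℝ) ≤ 162 := by
      have := card_boxE (4 * 1)
      norm_num at this ⊢
      exact_mod_cast this
    have hb : ∀ e ∈ boxE 1, ∑ f ∈ (boxE (4 * 1)).filter (fun f => f ≠ e ∧ dst e f ≤ (1:ℕ)),
      ∑ g ∈ boxE (4 * 1) \ PP 1, PQ q (boxE (4 * 1)) (SD (cn e) f g) ≤ 162 * 162 := by
      intro e _
      have hb1 : ∀ f ∈ (boxE (4 * 1)).filter (fun f => f ≠ e ∧ dst e f ≤ (1:ℕ)),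
          ∑ g ∈ boxE (4 * 1) \ PP 1, PQ q (boxE (4 * 1)) (SD (cn e) f g) ≤ 162 := by
        intro f _
        calc ∑ g ∈ boxE (4 * 1) \ PP 1, PQ q (boxE (4 * 1)) (SD (cn e) f g)
            ≤ ∑ g ∈ boxE (4 * 1) \ PP 1, (1:ℝ) :=
              Finset.sum_le_sum fun g _ => Pr_le_one hok _ _
          _ = ((boxE (4 * 1) \ PP 1).card : ℝ) := by rw [Finset.sum_const, nsmul_eq_mul, mul_one]
          _ ≤ ((boxE (4 * 1)).card : ℝ) := by
              exact_mod_cast Finset.card_le_card Finset.sdiff_subset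
          _ ≤ 162 := c4
      calc _ ≤ ∑ f ∈ (boxE (4 * 1)).filter (fun f => f ≠ e ∧ dst e f ≤ (1:ℕ)), (162:ℝ) :=
            Finset.sum_le_sum hb1
        _ = (((boxE (4 * 1)).filter (fun f => f ≠ e ∧ dst e f ≤ (1:ℕ))).card : ℝ) * 162 := by
            rw [Finset.sum_const, nsmul_eq_mul]
        _ ≤ 162 * 162 := by
            apply mul_le_mul_of_nonneg_right _ (by norm_num)
            refine le_trans ?_ c4
            exact_mod_cast Finset.card_le_card (Finset.filter_subset _ _)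
    calc _ ≤ ∑ e ∈ boxE 1, ((162:ℝ) * 162) := Finset.sum_le_sum hb
      _ = ((boxE 1).card : ℝ) * (162 * 162) := by rw [Finset.sum_const, nsmul_eq_mul]
      _ ≤ 18 * (162 * 162) := mul_le_mul_of_nonneg_right c1 (by norm_num)
      _ ≤ _ := by
          simp only [Nat.cast_one, one_pow, Real.one_rpow, mul_one]
          have : 0 < L * (K * 9) := by positivity
          linarith
  · have hm0 : (0:ℝ) < m := by linarith
    have hpm : 0 < (m:ℝ) ^ (-(5/4 : ℝ)) := by positivity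
    have e4 : (m:ℝ) ^ (-(5/4 : ℝ)) * m = (m:ℝ) ^ (-(1/4 : ℝ)) := by
      rw [← Real.rpow_add_one hm0.ne']
      norm_num
    have hg : ∀ e ∈ boxE m, ∀ f ∈ (boxE (4 * m)).filter (fun f => f ≠ e ∧ dst e f ≤ R),
        ∑ g ∈ boxE (4 * m) \ PP m, PQ q (boxE (4 * m)) (SD (cn e) f g) ≤
          L * (K * 9) * (m:ℝ) ^ (-(1/4 : ℝ)) := by
      intro e he f hf
      rw [Finset.mem_filter] at hf
      calc ∑ g ∈ boxE (4 * m) \ PP m, PQ q (boxE (4 * m)) (SD (cn e) f g)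
          ≤ ∑ g ∈ boxE (4 * m) \ PP m, L * ((m:ℝ) ^ (-(5/4 : ℝ)) *
              ((dlb (4 * m) g : ℝ) + 1) ^ (-(5/4 : ℝ))) := by
            apply Finset.sum_le_sum
            intro g hg
            rw [hL]
            exact far_one hS hC hA h0 h1 hm he hf.1 hg
        _ ≤ ∑ g ∈ boxE (4 * m), L * ((m:ℝ) ^ (-(5/4 : ℝ)) *
              ((dlb (4 * m) g : ℝ) + 1) ^ (-(5/4 : ℝ))) := by
            apply Finset.sum_le_sum_of_subset_of_nonneg Finset.sdiff_subset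
            intro g _ _
            positivity
        _ = L * ((m:ℝ) ^ (-(5/4 : ℝ)) * ∑ g ∈ boxE (4 * m),
              ((dlb (4 * m) g : ℝ) + 1) ^ (-(5/4 : ℝ))) := by
            rw [Finset.mul_sum, Finset.mul_sum]
        _ ≤ L * ((m:ℝ) ^ (-(5/4 : ℝ)) * (K * (9 * m))) := by
            apply mul_le_mul_of_nonneg_left _ hL0.le
            apply mul_le_mul_of_nonneg_left _ hpm.le
            refine (hbd (4 * m)).trans ?_
            apply mul_le_mul_of_nonneg_left _ hK.le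
            push_cast
            linarith
        _ = L * (K * 9) * ((m:ℝ) ^ (-(5/4 : ℝ)) * m) := by ring
        _ = _ := by rw [e4]
    have hf : ∀ e ∈ boxE m, ∑ f ∈ (boxE (4 * m)).filter (fun f => f ≠ e ∧ dst e f ≤ R),
        ∑ g ∈ boxE (4 * m) \ PP m, PQ q (boxE (4 * m)) (SD (cn e) f g) ≤
          (162 * (R:ℝ)^2) * (L * (K * 9) * (m:ℝ) ^ (-(1/4 : ℝ))) := by
      intro e he
      calc _ ≤ ∑ f ∈ (boxE (4 * m)).filter (fun f => f ≠ e ∧ dst e f ≤ R),
            (L * (K * 9) * (m:ℝ) ^ (-(1/4 : ℝ))) := Finset.sum_le_sum (hg e he)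
        _ = (((boxE (4 * m)).filter (fun f => f ≠ e ∧ dst e f ≤ R)).card : ℝ) *
            (L * (K * 9) * (m:ℝ) ^ (-(1/4 : ℝ))) := by rw [Finset.sum_const, nsmul_eq_mul]
        _ ≤ _ := by
            apply mul_le_mul_of_nonneg_right _ (by positivity)
            refine le_trans ?_ (NP.card_near e R hR (boxE (4 * m)))
            have : (boxE (4 * m)).filter (fun f => f ≠ e ∧ dst e f ≤ R) ⊆
                (boxE (4 * m)).filter (fun f => dst e f ≤ 4 * R) := by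
              intro f hf
              rw [Finset.mem_filter] at hf ⊢
              refine ⟨hf.1, hf.2.2.trans ?_⟩
              have : (0:ℤ) ≤ R := by positivity
              linarith
            exact_mod_cast Finset.card_le_card this
    have hcm : ((boxE m).card : ℝ) ≤ 18 * (m:ℝ)^2 := by
      have h5 := card_boxE m
      have h6 : (2 * m + 1) * ((2 * m + 1) * 2) ≤ 18 * m ^ 2 := by nlinarith
      exact_mod_cast h5.trans h6
    calc _ ≤ ∑ e ∈ boxE m, (162 * (R:ℝ)^2) * (L * (K * 9) * (m:ℝ) ^ (-(1/4 : ℝ))) :=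
          Finset.sum_le_sum hf
      _ = ((boxE m).card : ℝ) * ((162 * (R:ℝ)^2) * (L * (K * 9) * (m:ℝ) ^ (-(1/4 : ℝ)))) := by
          rw [Finset.sum_const, nsmul_eq_mul]
      _ ≤ (18 * (m:ℝ)^2) * ((162 * (R:ℝ)^2) * (L * (K * 9) * (m:ℝ) ^ (-(1/4 : ℝ)))) :=
          mul_le_mul_of_nonneg_right hcm (by positivity)
      _ = (18 * (162 * (L * (K * 9)))) * ((m:ℝ)^2 * ((R:ℝ)^2 * (m:ℝ) ^ (-(1/4 : ℝ)))) := by ring
      _ ≤ (18 * (162 * (L * (K * 9))) + 100000000) *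
            ((m:ℝ)^2 * ((R:ℝ)^2 * (m:ℝ) ^ (-(1/4 : ℝ)))) := by
          apply mul_le_mul_of_nonneg_right (by linarith) (by positivity)
      _ = _ := by ring

end Pool.Agent.Y492.AL
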