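import Pool.Agent.Y708.AL.K1
import Pool.Agent.Y708.AL.Tay
import Pool.Agent.Y895.AL.Ana
import Pool.Agent.Y748.AL.GL
import Pool.Agent.Y68.AL.LIM
import Pool.Agent.Y627.AL.Law
import Pool.Agent.Y574.AL.CS
import Pool.Agent.Y341.AL.MA
import Pool.Agent.Y304.AL.Exp
import Pool.Agent.Y492.AL.A4U

/-! # Assembly of project AL -/

namespace Pool.Agent.Y492.AL

open H974 H12S H973N Finset

theorem exp_all : S_EXP :=
  Pool.Agent.Y304.AL.exp_gl Pool.Agent.Y748.AL.gl_lim Pool.Agent.Y895.AL.ana a4u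
    (Pool.Agent.Y341.AL.ma Pool.Agent.Y708.AL.sym a4u)
    (mb_of Pool.Agent.Y708.AL.sym Pool.Agent.Y574.AL.cs a4u win)

end Pool.Agent.Y492.AL
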