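import Pool.Agent.Y492.AL.Stm
import Pool.Agent.H973R3.NC.NP
import Pool.Agent.H973R3.NC.FP

/-! # Local four-arm events from the differences of `cn` -/

namespace Pool.Agent.Y492.AL

open H974 H12S H973N Finset

theorem okc {q : ℝ} (h0 : 0 ≤ q) (h1 : q ≤ 1) : Ok (fun _ : Edg => q) := fun _ => ⟨h0, h1⟩

theorem dst_comm (e g : Edg) : dst e g = dst g e := FPX.dst_comm e g

theorem mem_blk_dst {e g : Edg} {ρ : ℕ} (h : g ∈ blk (bp e) ρ) : dst e g ≤ ρ := FPX.mem_blk_dst h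

theorem notMem_blk {e g : Edg} {ρ : ℕ} (h : (ρ:ℤ) < dst e g) : g ∉ blk (bp e) ρ := by
  intro h'
  have := mem_blk_dst h'
  omega

/-- The ends of `e` are outside the open box around `f`. -/
theorem off_of_dst {e f : Edg} {ρ : ℕ} (h : (ρ:ℤ) < dst e f) :
    Off (f.1 - ρ) (f.1 + ρ) (f.2.1 - ρ) (f.2.1 + ρ) {src e} {tgt e} := by
  intro v hv hb
  unfold dst at h
  rw [lt_max_iff] at h
  have hv' : v = src e ∨ v = tgt e := by simpa [or_comm] using hv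
  obtain ⟨x, y, b⟩ := e
  obtain ⟨x', y', b'⟩ := f
  simp only at h hb
  rcases hv' with rfl | rfl
  · simp only [src_mk] at hb
    rcases h with h | h <;> rw [lt_abs] at h <;> omega
  · cases b
    · simp only [tgt_false] at hb
      rcases h with h | h <;> rw [lt_abs] at h <;> omega
    · simp only [tgt_true] at hb
      rcases h with h | h <;> rw [lt_abs] at h <;> omega

theorem cn_mono (e : Edg) {F G : Finset Edg} (h : F ⊆ G) (hF : cn e F) : cn e G :=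
  Reach.mono (by exact_mod_cast Finset.erase_subset_erase e h) hF

theorem cn_CO (e : Edg) (F : Finset Edg) : cn e F ↔ CO {src e} {tgt e} ∅ (F.erase e) := by
  unfold cn CO Cn
  simp

/-- Pivotality of `f` for the ends of `e`, in terms of `CO`. -/
theorem Pf_cn_CO {e f : Edg} {F : Finset Edg} (hef : e ≠ f) :
    Pf (cn e) f F ↔ Pf (CO {src e} {tgt e} ∅) f (F.erase e) := by
  unfold Pf
  rw [cn_CO, cn_CO, Finset.erase_insert_of_ne hef.symm, Finset.erase_right_comm]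

/-- The local event at the pivotal edge. -/
theorem L4_of_Pf {e f : Edg} {F : Finset Edg} {ρ : ℕ} (hρ : 1 ≤ ρ) (h : (ρ:ℤ) < dst e f)
    (hef : e ≠ f) (hp : Pf (cn e) f F) : L4 ρ f (↑F : Set Edg) := by
  rw [Pf_cn_CO hef] at hp
  have h1 := piv_L4 hρ (O := ∅) (fun g hg => absurd hg (Set.notMem_empty g)) (off_of_dst h) hp
  refine (NP.L4_congr' ?_).1 h1
  intro x hx _
  rw [Finset.mem_erase]
  have hxe : x ≠ e := by
    rintro rfl
    rw [dst_comm] at h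
    exact notMem_blk h hx
  exact ⟨fun h => h.2, fun h => ⟨hxe, h⟩⟩

theorem L4_of_Pf' (hS : S_SYM) {e f : Edg} {F : Finset Edg} {ρ : ℕ} (hρ : 1 ≤ ρ)
    (h : (ρ:ℤ) < dst e f) (hef : e ≠ f) (hp : Pf (cn e) f F) : L4 ρ e (↑F : Set Edg) := by
  rw [hS.1 e f F hef] at hp
  rw [dst_comm] at h
  exact L4_of_Pf hρ h hef.symm hp

/-- Both local events for a configuration in which `g` has been changed. -/
theorem L4_SD (hS : S_SYM) {e f g : Edg} {F : Finset Edg} {ρ : ℕ} (hρ : 1 ≤ ρ)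
    (hef : e ≠ f) (h : (ρ:ℤ) < dst e f) (hg : (ρ:ℤ) < dst e g) (hg' : (ρ:ℤ) < dst f g)
    (hp : Pf (cn e) f (F.erase g) ∨ Pf (cn e) f (insert g F)) :
    L4 ρ e (↑F : Set Edg) ∧ L4 ρ f (↑F : Set Edg) := by
  have k1 : ∀ x : Edg, (ρ:ℤ) < dst x g → ∀ F' : Finset Edg, (∀ y, y ≠ g → (y ∈ F' ↔ y ∈ F)) →
      L4 ρ x (↑F' : Set Edg) → L4 ρ x (↑F : Set Edg) := by
    intro x hx F' hF' hL
    refine (NP.L4_congr' ?_).1 hL
    intro y hy _
    exact hF' y (fun hyg => notMem_blk hx (hyg ▸ hy))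
  have e1 : ∀ y, y ≠ g → (y ∈ F.erase g ↔ y ∈ F) := fun y hy => by
    rw [Finset.mem_erase]; tauto
  have e2 : ∀ y, y ≠ g → (y ∈ insert g F ↔ y ∈ F) := fun y hy => by
    rw [Finset.mem_insert]; tauto
  rcases hp with hp | hp
  · exact ⟨k1 e hg _ e1 (L4_of_Pf' hS hρ h hef hp), k1 f hg' _ e1 (L4_of_Pf hρ h hef hp)⟩
  · exact ⟨k1 e hg _ e2 (L4_of_Pf' hS hρ h hef hp), k1 f hg' _ e2 (L4_of_Pf hρ h hef hp)⟩

theorem a4_nn {q : ℝ} (h0 : 0 ≤ q) (h1 : q ≤ 1) (k : ℕ) : 0 ≤ a4 q k := FPX.a4_nonneg h0 h1 k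

theorem blk_disj {e f : Edg} {ρ ρ' : ℕ} (h : (ρ:ℤ) + ρ' < dst e f) :
    Disjoint (blk (bp e) ρ) (blk (bp f) ρ') := by
  rw [Finset.disjoint_left]
  intro x hx hx'
  have h1 := mem_blk_dst hx
  have h2 := mem_blk_dst hx'
  have h3 := FPX.dst_tri e x f
  rw [dst_comm x f] at h3
  omega

/-- Two disjoint balls. -/
theorem two_L4 {q : ℝ} (h0 : 0 ≤ q) (h1 : q ≤ 1) {S : Finset Edg} {e f : Edg} {ρ ρ' : ℕ}
    (he : blk (bp e) ρ ⊆ S) (hf : blk (bp f) ρ' ⊆ S) (h : (ρ:ℤ) + ρ' < dst e f) :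
    PQ q S (fun F => L4 ρ e (↑F : Set Edg) ∧ L4 ρ' f (↑F : Set Edg)) ≤ a4 q ρ * a4 q ρ' := by
  have hd := blk_disj h
  refine (NP.indep_L4 h0 h1 he ?_).trans ?_
  · intro F hF
    refine NP.L4_congr' ?_
    intro x hx _
    rw [Finset.mem_inter, Finset.mem_sdiff]
    exact ⟨fun h => ⟨h, hF h, fun h' => Finset.disjoint_left.mp hd h' hx⟩, fun h => h.1⟩
  · exact mul_le_mul_of_nonneg_left (pr_L4 h0 h1 hf) (a4_nn h0 h1 _)

/-- Three distant edges. -/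
theorem three_L4 {q : ℝ} (h0 : 0 ≤ q) (h1 : q ≤ 1) {S : Finset Edg} {e f g : Edg} {ρ : ℕ}
    (he : blk (bp e) ρ ⊆ S) (hf : blk (bp f) ρ ⊆ S) (hg : blk (bp g) ρ ⊆ S)
    (h : (2 * ρ : ℤ) < dst e f) (h' : (2 * ρ : ℤ) < dst e g) (h'' : (2 * ρ : ℤ) < dst f g) :
    PQ q S (fun F => L4 ρ e (↑F : Set Edg) ∧ (L4 ρ f (↑F : Set Edg) ∧ L4 ρ g (↑F : Set Edg))) ≤
      a4 q ρ ^ 3 := by
  have hd := blk_disj (e := e) (f := f) (ρ := ρ) (ρ' := ρ) (by linarith)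
  have hd' := blk_disj (e := e) (f := g) (ρ := ρ) (ρ' := ρ) (by linarith)
  refine (NP.indep_L4 h0 h1 he ?_).trans ?_
  · intro F hF
    apply and_congr
    · refine NP.L4_congr' ?_
      intro x hx _
      rw [Finset.mem_inter, Finset.mem_sdiff]
      exact ⟨fun h => ⟨h, hF h, fun h' => Finset.disjoint_left.mp hd h' hx⟩, fun h => h.1⟩
    · refine NP.L4_congr' ?_
      intro x hx _
      rw [Finset.mem_inter, Finset.mem_sdiff]
      exact ⟨fun h => ⟨h, hF h, fun h' => Finset.disjoint_left.mp hd' h' hx⟩, fun h => h.1⟩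
  · have := two_L4 h0 h1 (S := S) (e := f) (f := g) (ρ := ρ) (ρ' := ρ) hf hg (by linarith)
    calc a4 q ρ * PQ q S (fun F => L4 ρ f (↑F : Set Edg) ∧ L4 ρ g (↑F : Set Edg))
        ≤ a4 q ρ * (a4 q ρ * a4 q ρ) := mul_le_mul_of_nonneg_left this (a4_nn h0 h1 _)
      _ = a4 q ρ ^ 3 := by ring

/-- The comparable triples. -/
theorem SD_three (hS : S_SYM) {q : ℝ} (h0 : 0 ≤ q) (h1 : q ≤ 1) {S : Finset Edg} {e f g : Edg}
    {ρ : ℕ} (hρ : 1 ≤ ρ) (he : blk (bp e) ρ ⊆ S) (hf : blk (bp f) ρ ⊆ S) (hg : blk (bp g) ρ ⊆ S)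
    (h : (2 * ρ : ℤ) < dst e f) (h' : (2 * ρ : ℤ) < dst e g) (h'' : (2 * ρ : ℤ) < dst f g) :
    PQ q S (SD (cn e) f g) ≤ a4 q ρ ^ 3 := by
  refine le_trans (Pr_mono (okc h0 h1) ?_) (three_L4 h0 h1 he hf hg h h' h'')
  intro F _ hF
  have hρ0 : (1:ℤ) ≤ ρ := by exact_mod_cast hρ
  have hne : ∀ {x y : Edg}, (2 * ρ : ℤ) < dst x y → x ≠ y := by
    rintro x y hxy rfl
    rw [FPX.dst_self] at hxy
    omega
  obtain ⟨k1, k2⟩ := L4_SD hS hρ (hne h) (by linarith) (by linarith) (by linarith) hF.1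
  obtain ⟨_, k4⟩ := L4_SD hS hρ (hne h') (by linarith) (by linarith)
    (by rw [dst_comm]; linarith) hF.2.1
  exact ⟨k1, k2, k4⟩

end Pool.Agent.Y492.AL
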