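import Pool.Agent.Y492.AL.Cen

/-! # Near pairs around an isolated edge: the sums over one scale -/

set_option maxHeartbeats 1000000

namespace Pool.Agent.Y492.AL

open H974 H12S H973N Finset

/-- Central edges of the box. -/
noncomputable def PP (m : ℕ) : Finset Edg :=
  (boxE (4 * m)).filter (fun e => |e.1| ≤ 2 * m ∧ |e.2.1| ≤ 2 * m)

theorem PP_dst {m : ℕ} {a c : Edg} (ha : a ∈ PP m) (hc : c ∈ PP m) : dst c a ≤ 4 * m := by
  unfold PP at ha hc
  rw [Finset.mem_filter] at ha hc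
  obtain ⟨-, h1, h2⟩ := ha
  obtain ⟨-, h3, h4⟩ := hc
  rw [abs_le] at h1 h2 h3 h4
  unfold dst
  apply max_le <;> rw [abs_le] <;> constructor <;> omega

theorem PP_blk {m : ℕ} {a : Edg} (ha : a ∈ PP m) {ρ : ℕ} (h : ρ ≤ 2 * m) :
    blk (bp a) ρ ⊆ boxE (4 * m) := by
  unfold PP at ha
  rw [Finset.mem_filter] at ha
  obtain ⟨-, h1, h2⟩ := ha
  rw [abs_le] at h1 h2
  unfold blk bp boxE
  apply RE_subset <;> push_cast <;> omega

/-- The ring of scale `j` around `c`. -/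
noncomputable def Rg (m : ℕ) (c : Edg) (j : ℕ) : Finset Edg :=
  (PP m).filter (fun a => 128 * 2^j < dst c a ∧ dst c a ≤ 256 * 2^j)

theorem near_c (hS : S_SYM) (hCS : S_CS) (κ : ℝ) (hκ : 0 < κ) : ∃ C : ℝ, 0 < C ∧
    ∀ (q : ℝ) (n : ℕ), Win q κ n → ∀ (m : ℕ) (c : Edg), c ∈ PP m → ∀ (j k : ℕ), k ≤ j →
    12 * 2^k ≤ n →
    (∑ a ∈ Rg m c j, ∑ b ∈ (boxE (4 * m)).erase a,
      ind (2 * 2^k < dst a b ∧ dst a b ≤ 4 * 2^k) * PQ q (boxE (4 * m)) (SD (cn c) a b) ≤
        C * (a4 q (2^j) * ((16:ℝ)^k * (a4 q (2^k))^2 * 2^(j - k)))) ∧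
    (k = 0 → ∑ a ∈ Rg m c j, ∑ b ∈ (boxE (4 * m)).erase a,
      ind (dst a b ≤ 2) * PQ q (boxE (4 * m)) (SD (cn c) a b) ≤ C * (a4 q (2^j) * 2^j)) := by
  obtain ⟨C, hC, hcs⟩ := hCS κ hκ
  refine ⟨C * 256, by positivity, ?_⟩
  intro q n hW m c hc j k hkj hkn
  have h0 : 0 ≤ q := by linarith [hW.lo]
  have h1 : q ≤ 1 := by linarith [hW.hi]
  have hok := okc h0 h1
  have haj := a4_nn h0 h1 (2^j)
  have hak := a4_nn h0 h1 (2^k)
  by_cases hne : (Rg m c j).Nonempty
  swap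
  · rw [Finset.not_nonempty_iff_eq_empty] at hne
    rw [hne, Finset.sum_empty, Finset.sum_empty]
    exact ⟨by positivity, fun _ => by positivity⟩
  obtain ⟨a0, ha0⟩ := hne
  have hjm : 32 * 2^j < m := by
    unfold Rg at ha0
    rw [Finset.mem_filter] at ha0
    have := PP_dst ha0.1 hc
    have h2 : (128:ℤ) * 2^j < 4 * m := lt_of_lt_of_le ha0.2.1 this
    have h3 : (32:ℤ) * 2^j < m := by linarith
    exact_mod_cast h3
  have h2k : (2:ℕ)^k ≤ 2^j := Nat.pow_le_pow_right (by norm_num) hkj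
  have h2kz : (2:ℤ)^k ≤ 2^j := by exact_mod_cast h2k
  have h2jp : (0:ℤ) < 2^j := by positivity
  have hB : blk (bp c) (2^j) ⊆ boxE (4 * m) := PP_blk hc (by omega)
  have hρ : 1 ≤ 2^j := Nat.one_le_two_pow
  obtain ⟨B, hBd⟩ : ∃ B, B = blk (bp c) (2^j) := ⟨_, rfl⟩
  have hG1 : ∀ e ∈ Rg m c j, |e.1 - (bp c).1| ≤ (256:ℕ) * 2^j ∧
      |e.2.1 - (bp c).2| ≤ (256:ℕ) * 2^j := by
    intro e he
    unfold Rg at he
    rw [Finset.mem_filter] at he
    have h3 := he.2.2
    rw [dst_comm] at h3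
    unfold dst at h3
    exact ⟨(le_max_left _ _).trans h3, (le_max_right _ _).trans h3⟩
  have hG2 : ∀ e ∈ Rg m c j, blk (bp e) (24 * 2^k) ⊆ boxE (4 * m) \ blk (bp c) (2^j) ∧
      Off (e.1 - 24 * 2^k) (e.1 + 24 * 2^k) (e.2.1 - 24 * 2^k) (e.2.1 + 24 * 2^k)
        {src c} {tgt c} := by
    intro e he
    unfold Rg at he
    rw [Finset.mem_filter] at he
    constructor
    · rw [Finset.subset_sdiff]
      refine ⟨PP_blk he.1 (by omega), blk_disj ?_⟩
      rw [dst_comm]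
      push_cast
      linarith [he.2.1]
    · have := off_of_dst (e := c) (f := e) (ρ := 24 * 2^k) (by push_cast; linarith [he.2.1])
      push_cast at this
      exact this
  have hdist : ∀ a ∈ Rg m c j, ∀ b : Edg, dst a b ≤ 4 * 2^k → (((2^j : ℕ)) : ℤ) < dst c b := by
    intro a ha b hab
    unfold Rg at ha
    rw [Finset.mem_filter] at ha
    have h3 := FPX.dst_tri c b a
    rw [dst_comm b a] at h3
    push_cast
    linarith [ha.2.1]
  have hdistA : ∀ a ∈ Rg m c j, (((2^j : ℕ)) : ℤ) < dst c a := by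
    intro a ha
    unfold Rg at ha
    rw [Finset.mem_filter] at ha
    push_cast
    linarith [ha.2.1]
  have hdis : ∀ w : Finset Edg, w ⊆ blk (bp c) (2^j) →
      Disjoint (↑(w.erase c) : Set Edg) ↑(boxE (4 * m) \ blk (bp c) (2^j)) := by
    intro w hw
    rw [Finset.disjoint_coe]
    exact Finset.disjoint_of_subset_left ((Finset.erase_subset _ _).trans hw)
      Finset.disjoint_sdiff
  have main : ∀ (Q : Edg → Edg → Prop) (X : ℝ),
      (∀ a ∈ Rg m c j, ∀ b : Edg, Q a b → dst a b ≤ 4 * 2^k) →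
      (∀ w : Finset Edg, w ⊆ blk (bp c) (2^j) →
        ∑ a ∈ Rg m c j, ∑ b ∈ (boxE (4 * m) \ blk (bp c) (2^j)).erase a, ind (Q a b) *
          PQ q (boxE (4 * m) \ blk (bp c) (2^j)) (SD (CO {src c} {tgt c} ↑(w.erase c)) a b) ≤ X) →
      ∑ a ∈ Rg m c j, ∑ b ∈ (boxE (4 * m)).erase a,
        ind (Q a b) * PQ q (boxE (4 * m)) (SD (cn c) a b) ≤ a4 q (2^j) * X := by
    intro Q X hQ hX
    have e0 : ∀ (φ : Edg → Edg → ℝ) (V : Finset Edg),
        ∑ a ∈ Rg m c j, ∑ b ∈ V.erase a, ind (Q a b) * φ a b =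
        ∑ x ∈ Rg m c j ×ˢ V, ind (x.2 ≠ x.1 ∧ Q x.1 x.2) * φ x.1 x.2 := by
      intro φ V
      rw [Finset.sum_product]
      apply Finset.sum_congr rfl
      intro a _
      rw [← Finset.filter_ne' V a, Finset.sum_filter]
      apply Finset.sum_congr rfl
      intro b _
      by_cases hb : b = a
      · rw [if_neg (by simpa using hb), ind_not_of (by tauto), zero_mul]
      · rw [if_pos hb]
        congr 1
        exact ind_congr (by simp only []; tauto)
    rw [e0 (fun a b => PQ q (boxE (4 * m)) (SD (cn c) a b)) (boxE (4 * m))]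
    refine cond_c hS h0 h1 hρ hB _ (fun x : Edg × Edg => x.1) (fun x : Edg × Edg => x.2)
      (fun x => ind (x.2 ≠ x.1 ∧ Q x.1 x.2)) (fun _ _ => ind_nonneg _) ?_ ?_ ?_
    · intro x hx hvx
      rw [Finset.mem_product] at hx
      exact hdistA _ hx.1
    · intro x hx hvx
      rw [Finset.mem_product] at hx
      have : Q x.1 x.2 := by
        by_contra hcon
        exact hvx (ind_not_of (fun h => hcon h.2))
      exact hdist _ hx.1 _ (hQ _ hx.1 _ this)
    · intro w hw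
      refine le_trans (le_of_eq ?_) (hX w hw)
      rw [e0 (fun a b => PQ q (boxE (4 * m) \ blk (bp c) (2^j))
        (SD (CO {src c} {tgt c} ↑(w.erase c)) a b)) (boxE (4 * m) \ blk (bp c) (2^j))]
      symm
      apply Finset.sum_subset
      · exact Finset.product_subset_product_right Finset.sdiff_subset
      · intro x hx hx'
        rw [Finset.mem_product] at hx
        rw [ind_not_of, zero_mul]
        rintro ⟨_, h⟩
        apply hx'
        rw [Finset.mem_product, Finset.mem_sdiff]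
        exact ⟨hx.1, hx.2, notMem_blk (hdist _ hx.1 _ (hQ _ hx.1 _ h))⟩
  constructor
  · have := main (fun a b => 2 * 2^k < dst a b ∧ dst a b ≤ 4 * 2^k)
      (C * (256:ℕ) * ((16:ℝ)^k * (a4 q (2^k))^2 * 2^(j - k))) (fun a _ b h => h.2)
      (fun w hw => (hcs q n hW (boxE (4 * m) \ blk (bp c) (2^j)) {src c} {tgt c}
        ↑(w.erase c) (hdis w hw) k j 256 hkj (by norm_num) hkn (bp c) (Rg m c j) hG1 hG2).1)
    refine this.trans (le_of_eq ?_)
    push_cast
    ring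
  · intro hk0
    have := main (fun a b => dst a b ≤ 2)
      (C * (256:ℕ) * 2^j) (fun a _ b h => by
        have : (1:ℤ) ≤ 2^k := one_le_pow₀ (by norm_num)
        linarith)
      (fun w hw => (hcs q n hW (boxE (4 * m) \ blk (bp c) (2^j)) {src c} {tgt c}
        ↑(w.erase c) (hdis w hw) k j 256 hkj (by norm_num) hkn (bp c) (Rg m c j) hG1 hG2).2 hk0)
    refine this.trans (le_of_eq ?_)
    push_cast
    ring

end Pool.Agent.Y492.AL
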