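import Pool.Agent.Y492.AL.NearW

/-! # The second differences: proof of `S_MB` -/

set_option maxHeartbeats 1000000

namespace Pool.Agent.Y492.AL

open H974 H12S H973N Finset

/-- The window in which the crossing probabilities are bounded below. -/
def S_WIN : Prop := ∃ κ b : ℝ, 0 < κ ∧ 0 < b ∧ ∀ n : ℕ, 1 ≤ n → ∀ q : ℝ,
  |q - 1/2| ≤ b * (n:ℝ) ^ (-(3/4 : ℝ)) → Win q κ n

theorem Wc_bound (hS : S_SYM) (hCS : S_CS) (κ : ℝ) (hκ : 0 < κ) {C : ℝ} (hC : 0 < C)
    (hA : ∀ q : ℝ, 0 ≤ q → q ≤ 1 → ∀ k : ℕ, 1 ≤ k → a4 q k ≤ C * (k:ℝ) ^ (-(5/4 : ℝ))) :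
    ∃ K : ℝ, 0 < K ∧ ∀ (q : ℝ) (R m : ℕ), 1 ≤ R → R ≤ m → Win q κ (12 * R) →
      ∀ c ∈ PP m, ∑ a ∈ PP m, ∑ b ∈ boxE (4 * m), ind (nr R c a b) *
        PQ q (boxE (4 * m)) (SD (cn c) a b) ≤ K * (R:ℝ) ^ (1/4 : ℝ) := by
  obtain ⟨C₁, hC₁, hcs⟩ := near_c hS hCS κ hκ
  refine ⟨(162 * ((32:ℕ):ℝ)^2) * (162 * ((32:ℕ):ℝ)^2) + 7 * (C₁ * C) + 49 * (C₁ * C^3) +
    7 * (162 * 64^2 * (162 * 64^2) * C^3), by positivity, ?_⟩
  intro q R m hR hRm hW c hc
  have h0 : 0 ≤ q := by linarith [hW.lo]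
  have h1 : q ≤ 1 := by linarith [hW.hi]
  have hok := okc h0 h1
  have hPn : ∀ a b, 0 ≤ PQ q (boxE (4 * m)) (SD (cn c) a b) := fun a b => Pr_nonneg hok _ _
  have hP1 : ∀ a b, PQ q (boxE (4 * m)) (SD (cn c) a b) ≤ 1 := fun a b => Pr_le_one hok _ _
  have hXn : ∀ a, 0 ≤ ∑ b ∈ boxE (4 * m), ind (nr R c a b) *
      PQ q (boxE (4 * m)) (SD (cn c) a b) := fun a =>
    Finset.sum_nonneg fun b _ => mul_nonneg (ind_nonneg _) (hPn a b)
  obtain ⟨x, hx⟩ : ∃ x : ℝ, x = w4⁻¹ := ⟨_, rfl⟩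
  have hx0 : 0 < x := by rw [hx]; exact inv_pos.mpr w4_pos
  have hx7 : x ≤ 6/7 := by rw [hx]; exact w4_inv
  have hxw : x * w4 = 1 := by rw [hx]; exact inv_mul_cancel₀ w4_pos.ne'
  have ha4 : ∀ k : ℕ, a4 q (2^k) ≤ C * x ^ (5 * k) := by
    intro k
    have := hA q h0 h1 (2^k) Nat.one_le_two_pow
    rwa [rpow_w4, ← hx] at this
  have hRr : (1:ℝ) ≤ (R:ℝ) ^ (1/4 : ℝ) := by
    apply Real.one_le_rpow _ (by norm_num)
    exact_mod_cast hR
  -- the small part
  have p0 : ∑ a ∈ (PP m).filter (fun a => dst c a ≤ 4 * (32:ℕ)), ∑ b ∈ boxE (4 * m),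
      ind (nr R c a b) * PQ q (boxE (4 * m)) (SD (cn c) a b) ≤
      (162 * ((32:ℕ):ℝ)^2) * (162 * ((32:ℕ):ℝ)^2) := by
    have hb : ∀ a ∈ (PP m).filter (fun a => dst c a ≤ 4 * (32:ℕ)), ∑ b ∈ boxE (4 * m),
        ind (nr R c a b) * PQ q (boxE (4 * m)) (SD (cn c) a b) ≤ 162 * ((32:ℕ):ℝ)^2 := by
      intro a ha
      rw [Finset.mem_filter] at ha
      refine le_trans ?_ (NP.card_near a 32 (by norm_num) (boxE (4 * m)))
      rw [← nsmul_one, ← Finset.sum_const, Finset.sum_filter]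
      apply Finset.sum_le_sum
      intro b _
      by_cases hnr : nr R c a b
      · have : dst a b ≤ 4 * (32:ℕ) := hnr.2.2.2.1.trans ha.2
        rw [if_pos this, ind_of hnr, one_mul]
        exact hP1 a b
      · rw [ind_not_of hnr, zero_mul]
        split_ifs
        · norm_num
        · exact le_rfl
    refine (Finset.sum_le_sum hb).trans ?_
    rw [Finset.sum_const, nsmul_eq_mul]
    exact mul_le_mul_of_nonneg_right (NP.card_near c 32 (by norm_num) (PP m)) (by positivity)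
  -- the rings
  have p1 : ∀ j : ℕ, ∑ a ∈ Rg m c j, ∑ b ∈ boxE (4 * m), ind (nr R c a b) *
        PQ q (boxE (4 * m)) (SD (cn c) a b) ≤
      C₁ * C * x ^ j + C₁ * C^3 * ∑ k ∈ range (j + 1), (if 2^k ≤ R then w4^(2*k) * x^j else 0) +
      162 * 64^2 * (162 * 64^2) * C^3 * (if 2^j ≤ R then w4^j else 0) := by
    intro j
    refine (ring_bound hS κ hcs hW hR hRm (by omega) (by omega) hc j).trans ?_
    have haj := a4_nn h0 h1 (2^j)
    apply add_le_add (add_le_add _ _) _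
    · rw [mul_assoc]
      apply mul_le_mul_of_nonneg_left _ hC₁.le
      calc a4 q (2^j) * 2^j ≤ C * x^(5*j) * 2^j := by
            apply mul_le_mul_of_nonneg_right (ha4 j) (by positivity)
        _ = C * x^(5*j) * w4^(4*j) := by rw [two_pow_w4]
        _ = C * (x * w4)^(4*j) * x^j := by rw [mul_pow, show 5 * j = 4 * j + j by ring, pow_add]; ring
        _ = C * x^j := by rw [hxw, one_pow, mul_one]
    · rw [Finset.mul_sum]
      apply Finset.sum_le_sum
      intro k hk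
      rw [Finset.mem_range] at hk
      have hak := a4_nn h0 h1 (2^k)
      by_cases hkR : 2 * 2^k ≤ R
      swap
      · rw [if_neg hkR]
        have : 0 ≤ (if 2^k ≤ R then w4^(2*k) * x^j else 0) := by
          split_ifs
          · have := w4_pos; positivity
          · exact le_rfl
        positivity
      rw [if_pos hkR, if_pos (by omega), mul_assoc C₁ (C^3)]
      apply mul_le_mul_of_nonneg_left _ hC₁.le
      calc a4 q (2^j) * ((16:ℝ)^k * (a4 q (2^k))^2 * 2^(j - k))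
          ≤ (C * x^(5*j)) * ((16:ℝ)^k * (C * x^(5*k))^2 * 2^(j - k)) := by
            apply mul_le_mul (ha4 j) _ (by positivity) (by positivity)
            apply mul_le_mul_of_nonneg_right _ (by positivity)
            apply mul_le_mul_of_nonneg_left _ (by positivity)
            exact pow_le_pow_left₀ hak (ha4 k) 2
        _ = C^3 * (x^(5*j) * x^(10*k) * ((2:ℝ)^k)^4 * 2^(j-k)) := by
            rw [show (16:ℝ) = 2^4 by norm_num, ← pow_mul, ← pow_mul, mul_comm 4 k]
            rw [show (10:ℕ) * k = 5 * k + 5 * k by ring, pow_add]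
            ring
        _ = C^3 * (w4^(2*k) * x^j) := by
            congr 1
            obtain ⟨i, hi⟩ : ∃ i, j = k + i := ⟨j - k, by omega⟩
            subst hi
            rw [show k + i - k = i by omega, two_pow_w4, two_pow_w4, ← pow_mul]
            calc x^(5*(k+i)) * x^(10*k) * w4^(4*k*4) * w4^(4*i)
                = (x*w4)^(14*k + 4*i) * (w4^(2*k) * x^(k+i)) := by
                  rw [mul_pow]; ring
              _ = _ := by rw [hxw, one_pow, one_mul]
    · by_cases hjR : 2^j ≤ R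
      swap
      · rw [if_neg hjR, if_neg hjR, mul_zero]
      rw [if_pos hjR, if_pos hjR]
      calc (162 * ((64 * 2^j : ℕ) : ℝ)^2) * (162 * ((64 * 2^j : ℕ) : ℝ)^2) * a4 q (2^j) ^ 3
          ≤ (162 * ((64 * 2^j : ℕ) : ℝ)^2) * (162 * ((64 * 2^j : ℕ) : ℝ)^2) *
            (C * x^(5*j)) ^ 3 := by
            apply mul_le_mul_of_nonneg_left _ (by positivity)
            exact pow_le_pow_left₀ haj (ha4 j) 3
        _ = 162 * 64^2 * (162 * 64^2) * C^3 * (((2:ℝ)^j)^4 * x^(15*j)) := by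
            push_cast
            rw [show (15:ℕ) * j = 5 * j + 5 * j + 5 * j by ring, pow_add, pow_add]
            ring
        _ = 162 * 64^2 * (162 * 64^2) * C^3 * w4^j := by
            congr 1
            rw [two_pow_w4, ← pow_mul]
            calc w4^(4*j*4) * x^(15*j) = (x*w4)^(15*j) * w4^j := by rw [mul_pow]; ring
              _ = _ := by rw [hxw, one_pow, one_mul]
  -- the sums of the ring bounds
  have q1 : ∑ j ∈ range m, x^j ≤ 7 := by
    have := geo_tail hx0.le hx7 0 m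
    simpa using this
  have q2 : ∑ j ∈ range m, ∑ k ∈ range (j + 1), (if 2^k ≤ R then w4^(2*k) * x^j else 0) ≤
      49 * (R:ℝ) ^ (1/4 : ℝ) := by
    have e1 : ∑ j ∈ range m, ∑ k ∈ range (j + 1), (if 2^k ≤ R then w4^(2*k) * x^j else 0) =
        ∑ k ∈ range m, ∑ j ∈ Finset.Ico k m, (if 2^k ≤ R then w4^(2*k) * x^j else 0) := by
      apply Finset.sum_comm'
      intro j k
      simp only [Finset.mem_range, Finset.mem_Ico]
      omega
    rw [e1]
    calc _ ≤ ∑ k ∈ range m, 7 * (if 2^k ≤ R then w4^k else 0) := by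
          apply Finset.sum_le_sum
          intro k _
          by_cases hk : 2^k ≤ R
          · simp only [if_pos hk]
            rw [← Finset.mul_sum]
            calc w4^(2*k) * ∑ j ∈ Finset.Ico k m, x^j ≤ w4^(2*k) * (7 * x^k) :=
                  mul_le_mul_of_nonneg_left (geo_tail hx0.le hx7 k m) (pow_nonneg w4_pos.le _)
              _ = 7 * ((x*w4)^k * w4^k) := by rw [mul_pow, two_mul, pow_add]; ring
              _ = 7 * w4^k := by rw [hxw, one_pow, one_mul]
          · simp only [if_neg hk, Finset.sum_const_zero, mul_zero, le_refl]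
      _ = 7 * ∑ k ∈ range m, (if 2^k ≤ R then w4^k else 0) := by rw [Finset.mul_sum]
      _ ≤ 7 * (7 * (R:ℝ) ^ (1/4 : ℝ)) := mul_le_mul_of_nonneg_left (geo_head hR m) (by norm_num)
      _ = _ := by ring
  have q3 := geo_head hR m
  have hrs := ring_split m c hc (fun a => ∑ b ∈ boxE (4 * m), ind (nr R c a b) *
      PQ q (boxE (4 * m)) (SD (cn c) a b)) hXn
  refine hrs.trans ?_
  have p2 : ∑ j ∈ range m, ∑ a ∈ Rg m c j, ∑ b ∈ boxE (4 * m), ind (nr R c a b) *
        PQ q (boxE (4 * m)) (SD (cn c) a b) ≤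
      7 * (C₁ * C) + 49 * (C₁ * C^3) * (R:ℝ) ^ (1/4 : ℝ) +
      7 * (162 * 64^2 * (162 * 64^2) * C^3) * (R:ℝ) ^ (1/4 : ℝ) := by
    refine (Finset.sum_le_sum fun j _ => p1 j).trans ?_
    rw [Finset.sum_add_distrib, Finset.sum_add_distrib, ← Finset.mul_sum, ← Finset.mul_sum,
      ← Finset.mul_sum]
    have hc1 : 0 ≤ C₁ * C := by positivity
    have hc2 : 0 ≤ C₁ * C^3 := by positivity
    have hc3 : 0 ≤ 162 * 64^2 * (162 * 64^2) * C^3 := by positivity
    have r1 := mul_le_mul_of_nonneg_left q1 hc1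
    have r2 := mul_le_mul_of_nonneg_left q2 hc2
    have r3 := mul_le_mul_of_nonneg_left q3 hc3
    linarith
  have hc1 : 0 ≤ C₁ * C := by positivity
  have z1 := mul_le_mul_of_nonneg_left hRr hc1
  have z2 := mul_le_mul_of_nonneg_left hRr
    (show (0:ℝ) ≤ (162 * ((32:ℕ):ℝ)^2) * (162 * ((32:ℕ):ℝ)^2) by positivity)
  rw [mul_one] at z1 z2
  have := add_le_add p0 p2
  refine this.trans ?_
  nlinarith

/-- The second differences. -/
theorem mb_of (hS : S_SYM) (hCS : S_CS) (hA : S_A4) (hW : S_WIN) : S_MB := by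
  obtain ⟨Cf, hCf, hfar⟩ := far_sum hS hA
  obtain ⟨κ, b0, hκ, hb0, hwin⟩ := hW
  obtain ⟨C, hC, hA⟩ := hA
  obtain ⟨K, hK, hWc⟩ := Wc_bound hS hCS κ hκ hC hA
  refine ⟨3 * 162 * K + Cf, min (b0 * (12:ℝ) ^ (-(3/4 : ℝ))) (1/4), by positivity,
    lt_min (by positivity) (by norm_num), min_le_right _ _, ?_⟩
  intro m R hR hRm q hq
  have hRr : (1:ℝ) ≤ R := by exact_mod_cast hR
  have hR0 : (0:ℝ) < R := by linarith
  have hmr : (1:ℝ) ≤ m := by exact_mod_cast hR.trans hRm
  have hRp : 0 ≤ (R:ℝ) ^ (-(3/4 : ℝ)) := by positivity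
  have hR1 : (R:ℝ) ^ (-(3/4 : ℝ)) ≤ 1 := Real.rpow_le_one_of_one_le_of_nonpos hRr (by norm_num)
  have hwq : Win q κ (12 * R) := by
    apply hwin (12 * R) (by omega)
    refine hq.trans ?_
    push_cast
    rw [Real.mul_rpow (by norm_num) hR0.le, ← mul_assoc]
    exact mul_le_mul_of_nonneg_right (min_le_left _ _) hRp
  have h0 : 0 ≤ q := by linarith [hwq.lo]
  have h1 : q ≤ 1 := by linarith [hwq.hi]
  have hok := okc h0 h1
  obtain ⟨P, hP⟩ : ∃ P : Edg → Edg → Edg → ℝ,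
    P = fun e f g => PQ q (boxE (4 * m)) (SD (cn e) f g) := ⟨_, rfl⟩
  have hPn : ∀ e f g, 0 ≤ P e f g := fun e f g => by rw [hP]; exact Pr_nonneg hok _ _
  have hsym1 : ∀ e f g, e ≠ f → f ≠ g → e ≠ g → P e f g = P f e g := by
    intro e f g h1 h2 h3
    rw [hP]
    exact Pr_congr (fun F _ => (hS.2 e f g F h1 h2 h3).1)
  have hsym2 : ∀ e f g, e ≠ f → f ≠ g → e ≠ g → P e f g = P e g f := by
    intro e f g h1 h2 h3
    rw [hP]
    exact Pr_congr (fun F _ => (hS.2 e f g F h1 h2 h3).2)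
  have hfs := hfar q hwq.lo hwq.hi m R hR hRm
  -- the near part
  have hpt : ∀ e ∈ boxE m, ∀ f ∈ (boxE (4 * m)).filter (fun f => f ≠ e ∧ dst e f ≤ R),
      ∑ g ∈ ((boxE (4 * m)).erase e).erase f, P e f g ≤
      ∑ g ∈ PP m, (ind (nr R g e f) * P g e f + ind (nr R f e g) * P f e g +
        ind (nr R e f g) * P e f g) + ∑ g ∈ boxE (4 * m) \ PP m, P e f g := by
    intro e _ f hf
    rw [Finset.mem_filter] at hf
    obtain ⟨-, hfe, hdef⟩ := hf
    have hsub : ((boxE (4 * m)).erase e).erase f ⊆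
        ((PP m).erase e).erase f ∪ (boxE (4 * m) \ PP m) := by
      intro g hg
      rw [Finset.mem_erase, Finset.mem_erase] at hg
      rw [Finset.mem_union, Finset.mem_erase, Finset.mem_erase, Finset.mem_sdiff]
      by_cases h : g ∈ PP m
      · exact Or.inl ⟨hg.1, hg.2.1, h⟩
      · exact Or.inr ⟨hg.2.2, h⟩
    have hd : Disjoint (((PP m).erase e).erase f) (boxE (4 * m) \ PP m) := by
      rw [Finset.disjoint_left]
      intro g hg hg'
      rw [Finset.mem_erase, Finset.mem_erase] at hg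
      rw [Finset.mem_sdiff] at hg'
      exact hg'.2 hg.2.2
    refine (Finset.sum_le_sum_of_subset_of_nonneg hsub (fun g _ _ => hPn e f g)).trans ?_
    rw [Finset.sum_union hd]
    apply add_le_add _ le_rfl
    have hnn : ∀ g, 0 ≤ ind (nr R g e f) * P g e f + ind (nr R f e g) * P f e g +
        ind (nr R e f g) * P e f g := fun g =>
      add_nonneg (add_nonneg (mul_nonneg (ind_nonneg _) (hPn _ _ _))
        (mul_nonneg (ind_nonneg _) (hPn _ _ _))) (mul_nonneg (ind_nonneg _) (hPn _ _ _))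
    refine le_trans (Finset.sum_le_sum ?_) (Finset.sum_le_sum_of_subset_of_nonneg
      ((Finset.erase_subset _ _).trans (Finset.erase_subset _ _)) (fun g _ _ => hnn g))
    intro g hg
    rw [Finset.mem_erase, Finset.mem_erase] at hg
    obtain ⟨hgf, hge, -⟩ := hg
    have n1 : 0 ≤ ind (nr R g e f) * P g e f := mul_nonneg (ind_nonneg _) (hPn _ _ _)
    have n2 : 0 ≤ ind (nr R f e g) * P f e g := mul_nonneg (ind_nonneg _) (hPn _ _ _)
    have n3 : 0 ≤ ind (nr R e f g) * P e f g := mul_nonneg (ind_nonneg _) (hPn _ _ _)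
    rcases le_total (dst e f) (dst e g) with h1 | h1
    · rcases le_total (dst e f) (dst f g) with h2 | h2
      · -- the closest pair is e, f
        have hn : nr R g e f := ⟨hge, hfe.symm, hdef, by rw [dst_comm g e]; exact h1,
          by rw [dst_comm g f]; exact h2⟩
        rw [ind_of hn, one_mul] at n1 ⊢
        have : P e f g = P g e f := by
          rw [hsym2 e f g hfe.symm hgf.symm hge.symm, hsym1 e g f hge.symm hgf hfe.symm]
        linarith
      · -- the closest pair is f, g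
        have hn : nr R e f g := ⟨hfe.symm, hgf.symm, h2.trans hdef, h2, h2.trans h1⟩
        rw [ind_of hn, one_mul] at n3 ⊢
        linarith
    · rcases le_total (dst e g) (dst f g) with h2 | h2
      · -- the closest pair is e, g
        have hn : nr R f e g := ⟨hfe, hge.symm, h1.trans hdef, by rw [dst_comm f e]; exact h1, h2⟩
        rw [ind_of hn, one_mul] at n2 ⊢
        have := hsym1 e f g hfe.symm hgf.symm hge.symm
        linarith
      · have hn : nr R e f g := ⟨hfe.symm, hgf.symm, (h2.trans h1).trans hdef, h2.trans h1, h2⟩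
        rw [ind_of hn, one_mul] at n3 ⊢
        linarith
  have hfP : ∀ e ∈ boxE m, (boxE (4 * m)).filter (fun f => f ≠ e ∧ dst e f ≤ R) ⊆ PP m := by
    intro e he f hf
    rw [Finset.mem_filter] at hf
    obtain ⟨hf1, _, hf2⟩ := hf
    have h3 := mem_box he
    unfold dst at hf2
    rw [max_le_iff, abs_le, abs_le] at hf2
    have h7 : (R:ℤ) ≤ m := by exact_mod_cast hRm
    unfold PP
    rw [Finset.mem_filter]
    refine ⟨hf1, ?_, ?_⟩ <;> rw [abs_le] <;> constructor <;> omega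
  have hPPs : PP m ⊆ boxE (4 * m) := Finset.filter_subset _ _
  have hWsum : ∑ c ∈ PP m, ∑ a ∈ PP m, ∑ b ∈ PP m, ind (nr R c a b) * P c a b ≤
      162 * (m:ℝ)^2 * (K * (R:ℝ) ^ (1/4 : ℝ)) := by
    have hb : ∀ c ∈ PP m, ∑ a ∈ PP m, ∑ b ∈ PP m, ind (nr R c a b) * P c a b ≤
        K * (R:ℝ) ^ (1/4 : ℝ) := by
      intro c hc
      refine le_trans ?_ (hWc q R m hR hRm hwq c hc)
      apply Finset.sum_le_sum
      intro a _
      rw [hP]
      exact Finset.sum_le_sum_of_subset_of_nonneg hPPs (fun b _ _ =>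
        mul_nonneg (ind_nonneg _) (Pr_nonneg hok _ _))
    refine (Finset.sum_le_sum hb).trans ?_
    rw [Finset.sum_const, nsmul_eq_mul]
    apply mul_le_mul_of_nonneg_right _ (by positivity)
    have h5 := card_boxE (4 * m)
    have h6 : (2 * (4 * m) + 1) * ((2 * (4 * m) + 1) * 2) ≤ 162 * m ^ 2 := by
      have : 1 ≤ m := hR.trans hRm
      nlinarith
    have h7 := (Finset.card_le_card hPPs).trans (h5.trans h6)
    exact_mod_cast h7
  have hnn3 : ∀ e f g, 0 ≤ ind (nr R g e f) * P g e f + ind (nr R f e g) * P f e g +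
        ind (nr R e f g) * P e f g := fun e f g =>
      add_nonneg (add_nonneg (mul_nonneg (ind_nonneg _) (hPn _ _ _))
        (mul_nonneg (ind_nonneg _) (hPn _ _ _))) (mul_nonneg (ind_nonneg _) (hPn _ _ _))
  have hmain : ∑ e ∈ boxE m, ∑ f ∈ (boxE (4 * m)).filter (fun f => f ≠ e ∧ dst e f ≤ R),
      ∑ g ∈ PP m, (ind (nr R g e f) * P g e f + ind (nr R f e g) * P f e g +
        ind (nr R e f g) * P e f g) ≤ 3 * (162 * (m:ℝ)^2 * (K * (R:ℝ) ^ (1/4 : ℝ))) := by
    calc _ ≤ ∑ e ∈ boxE m, ∑ f ∈ PP m,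
        ∑ g ∈ PP m, (ind (nr R g e f) * P g e f + ind (nr R f e g) * P f e g +
        ind (nr R e f g) * P e f g) := by
          apply Finset.sum_le_sum
          intro e he
          exact Finset.sum_le_sum_of_subset_of_nonneg (hfP e he) (fun f _ _ =>
            Finset.sum_nonneg fun g _ => hnn3 e f g)
      _ ≤ ∑ e ∈ PP m, ∑ f ∈ PP m,
        ∑ g ∈ PP m, (ind (nr R g e f) * P g e f + ind (nr R f e g) * P f e g +
        ind (nr R e f g) * P e f g) :=
          Finset.sum_le_sum_of_subset_of_nonneg (fun e he => boxE_PP he) (fun e _ _ =>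
            Finset.sum_nonneg fun f _ => Finset.sum_nonneg fun g _ => hnn3 e f g)
      _ = ∑ c ∈ PP m, ∑ a ∈ PP m, ∑ b ∈ PP m, ind (nr R c a b) * P c a b +
          ∑ c ∈ PP m, ∑ a ∈ PP m, ∑ b ∈ PP m, ind (nr R c a b) * P c a b +
          ∑ c ∈ PP m, ∑ a ∈ PP m, ∑ b ∈ PP m, ind (nr R c a b) * P c a b := by
          simp only [Finset.sum_add_distrib]
          congr 2
          · -- g e f
            calc ∑ e ∈ PP m, ∑ f ∈ PP m, ∑ g ∈ PP m, ind (nr R g e f) * P g e f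
                = ∑ e ∈ PP m, ∑ g ∈ PP m, ∑ f ∈ PP m, ind (nr R g e f) * P g e f := by
                  apply Finset.sum_congr rfl
                  intro e _
                  rw [Finset.sum_comm]
              _ = _ := by rw [Finset.sum_comm]
          · rw [Finset.sum_comm]
      _ ≤ _ := by linarith
  have hfar' : ∑ e ∈ boxE m, ∑ f ∈ (boxE (4 * m)).filter (fun f => f ≠ e ∧ dst e f ≤ R),
      ∑ g ∈ boxE (4 * m) \ PP m, P e f g ≤ Cf * (m:ℝ)^2 * ((R:ℝ)^2 * (m:ℝ) ^ (-(1/4 : ℝ))) := by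
    rw [hP]; exact hfs
  have htot : ∑ e ∈ boxE m, ∑ f ∈ (boxE (4 * m)).filter (fun f => f ≠ e ∧ dst e f ≤ R),
    ∑ g ∈ ((boxE (4 * m)).erase e).erase f, P e f g ≤
      3 * (162 * (m:ℝ)^2 * (K * (R:ℝ) ^ (1/4 : ℝ))) +
      Cf * (m:ℝ)^2 * ((R:ℝ)^2 * (m:ℝ) ^ (-(1/4 : ℝ))) := by
    refine le_trans (Finset.sum_le_sum fun e he => Finset.sum_le_sum fun f hf => hpt e he f hf) ?_
    simp only [Finset.sum_add_distrib] at hmain hfar' ⊢
    linarith
  rw [hP] at htot
  refine htot.trans ?_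
  have y1 : 0 ≤ (m:ℝ)^2 * (R:ℝ) ^ (1/4 : ℝ) := by positivity
  have y2 : 0 ≤ (m:ℝ)^2 * ((R:ℝ)^2 * (m:ℝ) ^ (-(1/4 : ℝ))) := by positivity
  have y3 := mul_nonneg hCf.le y1
  have y4 := mul_nonneg hK.le y2
  nlinarith

end Pool.Agent.Y492.AL
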