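import Pool.Agent.Y492.AL.FarS
import Pool.Agent.H973R3.NC.AR

/-! # The sum over the pairs which are near for a given isolated edge -/

set_option maxHeartbeats 1000000

namespace Pool.Agent.Y492.AL

open H974 H12S H973N Finset

/-- `2^(1/4)` -/
noncomputable def w4 : ℝ := (2:ℝ) ^ (1/4 : ℝ)

theorem w4_pos : 0 < w4 := by unfold w4; positivity

theorem w4_pow : w4 ^ 4 = 2 := by
  unfold w4
  rw [← Real.rpow_natCast, ← Real.rpow_mul (by norm_num)]
  norm_num

theorem w4_ge : 7 / 6 ≤ w4 := by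
  by_contra hcon
  push Not at hcon
  have h1 : w4 ^ 4 < (7/6)^4 := pow_lt_pow_left₀ hcon w4_pos.le (by norm_num)
  rw [w4_pow] at h1
  norm_num at h1

theorem w4_inv : w4⁻¹ ≤ 6 / 7 := by
  rw [inv_le_comm₀ w4_pos (by norm_num)]
  have := w4_ge
  norm_num
  linarith

theorem two_pow_w4 (k : ℕ) : (2:ℝ) ^ k = w4 ^ (4 * k) := by rw [pow_mul, w4_pow]

theorem rpow_w4 (k : ℕ) : (((2^k : ℕ)) : ℝ) ^ (-(5/4 : ℝ)) = (w4⁻¹) ^ (5 * k) := by
  unfold w4
  push_cast
  rw [inv_pow, ← Real.rpow_natCast 2 k, ← Real.rpow_natCast _ (5 * k), ← Real.rpow_mul (by norm_num),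
    ← Real.rpow_mul (by norm_num), ← Real.rpow_neg (by norm_num)]
  congr 1
  push_cast
  ring

theorem w4_log {R : ℕ} (hR : 1 ≤ R) : w4 ^ (Nat.log 2 R) ≤ (R:ℝ) ^ (1/4 : ℝ) := by
  unfold w4
  rw [← Real.rpow_natCast, ← Real.rpow_mul (by norm_num), mul_comm, Real.rpow_mul (by norm_num)]
  apply Real.rpow_le_rpow (by positivity) _ (by norm_num)
  rw [Real.rpow_natCast]
  exact_mod_cast Nat.pow_log_le_self 2 (by omega)

/-- geometric tail -/
theorem geo_tail {x : ℝ} (hx0 : 0 ≤ x) (hx : x ≤ 6/7) (k M : ℕ) :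
    ∑ j ∈ Finset.Ico k M, x ^ j ≤ 7 * x ^ k := by
  rcases Nat.lt_or_ge M k with h | h
  · rw [Finset.Ico_eq_empty (by omega), Finset.sum_empty]; positivity
  · have key : ∀ d : ℕ, ∑ j ∈ Finset.Ico k (k + d), x ^ j ≤ 7 * (x ^ k - x ^ (k + d)) := by
      intro d
      induction d with
      | zero => simp
      | succ d ih =>
        rw [← add_assoc, Finset.sum_Ico_succ_top (by omega)]
        have h1 : 0 ≤ x ^ (k + d) := by positivity
        have h2 : x ^ (k + d + 1) = x ^ (k + d) * x := pow_succ _ _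
        rw [h2]
        nlinarith
    have := key (M - k)
    rw [show k + (M - k) = M by omega] at this
    have h1 : 0 ≤ x ^ M := by positivity
    linarith

/-- geometric head, cut at the scale `R` -/
theorem geo_head {R : ℕ} (hR : 1 ≤ R) (M : ℕ) :
    ∑ k ∈ range M, (if 2^k ≤ R then w4 ^ k else 0) ≤ 7 * (R:ℝ) ^ (1/4 : ℝ) := by
  rw [← Finset.sum_filter]
  have hsub : (range M).filter (fun k => 2^k ≤ R) ⊆ range (Nat.log 2 R + 1) := by
    intro k hk
    rw [Finset.mem_filter] at hk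
    rw [Finset.mem_range, Nat.lt_succ_iff]
    exact (Nat.le_log_iff_pow_le (by norm_num) (by omega)).mpr hk.2
  calc _ ≤ ∑ k ∈ range (Nat.log 2 R + 1), w4 ^ k :=
        Finset.sum_le_sum_of_subset_of_nonneg hsub (fun _ _ _ => pow_nonneg w4_pos.le _)
    _ ≤ 7 * w4 ^ (Nat.log 2 R) := geo_le w4 w4_ge _
    _ ≤ _ := mul_le_mul_of_nonneg_left (w4_log hR) (by norm_num)

/-- the pair `a, b` is the closest pair of the triple -/
def nr (R : ℕ) (c a b : Edg) : Prop :=
  c ≠ a ∧ a ≠ b ∧ dst a b ≤ R ∧ dst a b ≤ dst c a ∧ dst a b ≤ dst c b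

/-- splitting of the central edges into rings -/
theorem ring_split (m : ℕ) (c : Edg) (hc : c ∈ PP m) (X : Edg → ℝ) (hX : ∀ a, 0 ≤ X a) :
    ∑ a ∈ PP m, X a ≤ ∑ a ∈ (PP m).filter (fun a => dst c a ≤ 4 * (32:ℕ)), X a +
      ∑ j ∈ range m, ∑ a ∈ Rg m c j, X a := by
  unfold Rg
  simp only [Finset.sum_filter]
  rw [Finset.sum_comm, ← Finset.sum_add_distrib]
  apply Finset.sum_le_sum
  intro a ha
  have hnn : ∀ j ∈ range m, 0 ≤ (if 128 * 2^j < dst c a ∧ dst c a ≤ 256 * 2^j then X a else 0) := by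
    intro j _
    split_ifs
    · exact hX a
    · exact le_rfl
  by_cases h : dst c a ≤ 4 * (32:ℕ)
  · rw [if_pos h]
    linarith [Finset.sum_nonneg hnn]
  · rw [if_neg h, zero_add]
    push Not at h
    have hd := PP_dst ha hc
    -- the scale
    obtain ⟨D, hD⟩ : ∃ D : ℕ, (D:ℤ) = dst c a := ⟨(dst c a).toNat, by omega⟩
    rw [← hD] at h hd
    have hD1 : 128 < D := by exact_mod_cast h
    have hD2 : D ≤ 4 * m := by exact_mod_cast hd
    obtain ⟨j, hj⟩ : ∃ j, j = Nat.log 2 ((D - 1) / 128) := ⟨_, rfl⟩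
    have h1 : 1 ≤ (D - 1) / 128 := by omega
    have h2 : 2^j ≤ (D - 1) / 128 := by rw [hj]; exact Nat.pow_log_le_self 2 (by omega)
    have h3 : (D - 1) / 128 < 2^(j+1) := by rw [hj]; exact Nat.lt_pow_succ_log_self (by norm_num) _
    have h4 : 128 * 2^j < D := by omega
    have h5 : D ≤ 256 * 2^j := by rw [pow_succ] at h3; omega
    have h6 : j < m := by
      have : j < 2^j := Nat.lt_two_pow_self
      omega
    have h7 : (128:ℤ) * 2^j < dst c a ∧ dst c a ≤ 256 * 2^j := by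
      rw [← hD]; exact ⟨by exact_mod_cast h4, by exact_mod_cast h5⟩
    refine le_trans (le_of_eq ?_) (Finset.single_le_sum hnn (Finset.mem_range.mpr h6))
    rw [if_pos h7]

/-- the bound for one ring -/
theorem ring_bound (hS : S_SYM) (κ : ℝ) {C₁ : ℝ}
    (hcs : ∀ (q : ℝ) (n : ℕ), Win q κ n → ∀ (m : ℕ) (c : Edg), c ∈ PP m → ∀ (j k : ℕ), k ≤ j →
    12 * 2^k ≤ n →
    (∑ a ∈ Rg m c j, ∑ b ∈ (boxE (4 * m)).erase a,
      ind (2 * 2^k < dst a b ∧ dst a b ≤ 4 * 2^k) * PQ q (boxE (4 * m)) (SD (cn c) a b) ≤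
        C₁ * (a4 q (2^j) * ((16:ℝ)^k * (a4 q (2^k))^2 * 2^(j - k)))) ∧
    (k = 0 → ∑ a ∈ Rg m c j, ∑ b ∈ (boxE (4 * m)).erase a,
      ind (dst a b ≤ 2) * PQ q (boxE (4 * m)) (SD (cn c) a b) ≤ C₁ * (a4 q (2^j) * 2^j)))
    {q : ℝ} {n R m : ℕ} (hW : Win q κ n) (hR : 1 ≤ R) (hRm : R ≤ m) (hn : 12 ≤ n) (hn6 : 6 * R ≤ n)
    {c : Edg} (hc : c ∈ PP m) (j : ℕ) :
    ∑ a ∈ Rg m c j, ∑ b ∈ boxE (4 * m), ind (nr R c a b) *
        PQ q (boxE (4 * m)) (SD (cn c) a b) ≤
      C₁ * (a4 q (2^j) * 2^j) +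
      ∑ k ∈ range (j + 1), (if 2 * 2^k ≤ R then
        C₁ * (a4 q (2^j) * ((16:ℝ)^k * (a4 q (2^k))^2 * 2^(j - k))) else 0) +
      (if 2^j ≤ R then (162 * ((64 * 2^j : ℕ) : ℝ)^2) * (162 * ((64 * 2^j : ℕ) : ℝ)^2) *
        a4 q (2^j) ^ 3 else 0) := by
  have h0 : 0 ≤ q := by linarith [hW.lo]
  have h1 : q ≤ 1 := by linarith [hW.hi]
  have hok := okc h0 h1
  have haj := a4_nn h0 h1 (2^j)
  have hPn : ∀ a b, 0 ≤ PQ q (boxE (4 * m)) (SD (cn c) a b) := fun a b => Pr_nonneg hok _ _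
  -- pointwise bound
  have hpt : ∀ a ∈ Rg m c j, ∀ b ∈ boxE (4 * m), ind (nr R c a b) *
      PQ q (boxE (4 * m)) (SD (cn c) a b) ≤
      (if b ≠ a then ind (dst a b ≤ 2) * PQ q (boxE (4 * m)) (SD (cn c) a b) else 0) +
      ∑ k ∈ range (j + 1), (if 2 * 2^k ≤ R then (if b ≠ a then
        ind (2 * 2^k < dst a b ∧ dst a b ≤ 4 * 2^k) *
          PQ q (boxE (4 * m)) (SD (cn c) a b) else 0) else 0) +
      (if 2^j ≤ R then (if dst a b ≤ 4 * (64 * 2^j : ℕ) then a4 q (2^j) ^ 3 else 0) else 0) := by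
    intro a ha b hb
    have n1 : 0 ≤ (if b ≠ a then ind (dst a b ≤ 2) * PQ q (boxE (4 * m)) (SD (cn c) a b) else 0) := by
      split_ifs
      · exact mul_nonneg (ind_nonneg _) (hPn a b)
      · exact le_rfl
    have n2k : ∀ k ∈ range (j + 1), 0 ≤ (if 2 * 2^k ≤ R then (if b ≠ a then
        ind (2 * 2^k < dst a b ∧ dst a b ≤ 4 * 2^k) *
          PQ q (boxE (4 * m)) (SD (cn c) a b) else 0) else 0) := by
      intro k _
      split_ifs
      · exact mul_nonneg (ind_nonneg _) (hPn a b)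
      · exact le_rfl
      · exact le_rfl
    have n2 := Finset.sum_nonneg n2k
    have n3 : 0 ≤ (if 2^j ≤ R then (if dst a b ≤ 4 * (64 * 2^j : ℕ) then a4 q (2^j) ^ 3
        else 0) else 0) := by
      split_ifs
      · positivity
      · exact le_rfl
      · exact le_rfl
    by_cases hnr : nr R c a b
    swap
    · rw [ind_not_of hnr, zero_mul]
      positivity
    rw [ind_of hnr, one_mul]
    obtain ⟨hca, hab, hR', hda, hdb⟩ := hnr
    unfold Rg at ha
    rw [Finset.mem_filter] at ha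
    obtain ⟨haP, ha1, ha2⟩ := ha
    by_cases hc1 : dst a b ≤ 2
    · rw [if_pos hab.symm, ind_of hc1, one_mul]
      linarith
    push Not at hc1
    by_cases hc2 : dst a b ≤ 4 * 2^j
    · -- a scale
      obtain ⟨D, hD⟩ : ∃ D : ℕ, (D:ℤ) = dst a b := ⟨(dst a b).toNat, by omega⟩
      rw [← hD] at hc1 hc2 hR'
      have hD1 : 2 < D := by exact_mod_cast hc1
      have hD2 : D ≤ 4 * 2^j := by exact_mod_cast hc2
      have hD3 : D ≤ R := by exact_mod_cast hR'
      obtain ⟨k, hk⟩ : ∃ k, k = Nat.log 2 ((D - 1) / 2) := ⟨_, rfl⟩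
      have g1 : 1 ≤ (D - 1) / 2 := by omega
      have g2 : 2^k ≤ (D - 1) / 2 := by rw [hk]; exact Nat.pow_log_le_self 2 (by omega)
      have g3 : (D - 1) / 2 < 2^(k+1) := by rw [hk]; exact Nat.lt_pow_succ_log_self (by norm_num) _
      have g4 : 2 * 2^k < D := by omega
      have g5 : D ≤ 4 * 2^k := by rw [pow_succ] at g3; omega
      have g6 : k < j + 1 := by
        by_contra hcon
        push Not at hcon
        have : (2:ℕ)^(j+1) ≤ 2^k := Nat.pow_le_pow_right (by norm_num) hcon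
        rw [pow_succ] at this
        omega
      have g7 : (2:ℤ) * 2^k < dst a b ∧ dst a b ≤ 4 * 2^k := by
        rw [← hD]; exact ⟨by exact_mod_cast g4, by exact_mod_cast g5⟩
      have := Finset.single_le_sum n2k (Finset.mem_range.mpr g6)
      rw [if_pos (by omega), if_pos hab.symm, ind_of g7, one_mul] at this
      linarith
    · push Not at hc2
      have hjR : 4 * 2^j < R := by
        have : (4:ℤ) * 2^j < R := by linarith
        exact_mod_cast this
      have hbd : dst a b ≤ 4 * (64 * 2^j : ℕ) := by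
        push_cast
        linarith
      rw [if_pos (show 2^j ≤ R by omega), if_pos hbd]
      have hin : ∀ x : Edg, dst a x ≤ R → blk (bp x) (2^j) ⊆ boxE (4 * m) := by
        intro x hx
        unfold PP at haP
        rw [Finset.mem_filter] at haP
        obtain ⟨-, h3, h4⟩ := haP
        unfold dst at hx
        rw [max_le_iff] at hx
        rw [abs_le] at h3 h4
        obtain ⟨h5, h6⟩ := hx
        rw [abs_le] at h5 h6
        have h7 : (R:ℤ) ≤ m := by exact_mod_cast hRm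
        have h8 : (4:ℤ) * 2^j < R := by exact_mod_cast hjR
        have h9 : (0:ℤ) < 2^j := by positivity
        unfold blk bp boxE
        apply RE_subset <;> push_cast <;> linarith
      have hinc : blk (bp c) (2^j) ⊆ boxE (4 * m) := PP_blk hc (by omega)
      have h2j : (0:ℤ) < 2^j := by positivity
      have := SD_three hS h0 h1 (S := boxE (4 * m)) (e := c) (f := a) (g := b) (ρ := 2^j)
        Nat.one_le_two_pow hinc (hin a (by rw [FPX.dst_self]; positivity)) (hin b hR')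
        (by push_cast; linarith) (by push_cast; linarith) (by push_cast; linarith)
      linarith
  -- summation
  have s1 : ∑ a ∈ Rg m c j, ∑ b ∈ boxE (4 * m),
      (if b ≠ a then ind (dst a b ≤ 2) * PQ q (boxE (4 * m)) (SD (cn c) a b) else 0) ≤
      C₁ * (a4 q (2^j) * 2^j) := by
    have h3 := (hcs q n hW m c hc j 0 (Nat.zero_le _) (by simpa using hn)).2 rfl
    refine le_trans (le_of_eq ?_) h3
    apply Finset.sum_congr rfl
    intro a _
    rw [← Finset.filter_ne' (boxE (4 * m)) a, Finset.sum_filter]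
  have s2 : ∀ k ∈ range (j + 1), ∑ a ∈ Rg m c j, ∑ b ∈ boxE (4 * m),
      (if 2 * 2^k ≤ R then (if b ≠ a then ind (2 * 2^k < dst a b ∧ dst a b ≤ 4 * 2^k) *
          PQ q (boxE (4 * m)) (SD (cn c) a b) else 0) else 0) ≤
      (if 2 * 2^k ≤ R then
        C₁ * (a4 q (2^j) * ((16:ℝ)^k * (a4 q (2^k))^2 * 2^(j - k))) else 0) := by
    intro k hk
    rw [Finset.mem_range] at hk
    by_cases hkR : 2 * 2^k ≤ R
    · rw [if_pos hkR]
      have h3 := (hcs q n hW m c hc j k (by omega) (by omega)).1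
      refine le_trans (le_of_eq ?_) h3
      apply Finset.sum_congr rfl
      intro a _
      rw [← Finset.filter_ne' (boxE (4 * m)) a, Finset.sum_filter]
      apply Finset.sum_congr rfl
      intro b _
      rw [if_pos hkR]
    · rw [if_neg hkR]
      apply le_of_eq
      apply Finset.sum_eq_zero
      intro a _
      apply Finset.sum_eq_zero
      intro b _
      rw [if_neg hkR]
  have s3 : ∑ a ∈ Rg m c j, ∑ b ∈ boxE (4 * m),
      (if 2^j ≤ R then (if dst a b ≤ 4 * (64 * 2^j : ℕ) then a4 q (2^j) ^ 3 else 0) else 0) ≤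
      (if 2^j ≤ R then (162 * ((64 * 2^j : ℕ) : ℝ)^2) * (162 * ((64 * 2^j : ℕ) : ℝ)^2) *
        a4 q (2^j) ^ 3 else 0) := by
    by_cases hjR : 2^j ≤ R
    · simp only [if_pos hjR]
      have hb : ∀ a ∈ Rg m c j, ∑ b ∈ boxE (4 * m),
          (if dst a b ≤ 4 * (64 * 2^j : ℕ) then a4 q (2^j) ^ 3 else 0) ≤
          (162 * ((64 * 2^j : ℕ) : ℝ)^2) * a4 q (2^j) ^ 3 := by
        intro a _
        rw [← Finset.sum_filter, Finset.sum_const, nsmul_eq_mul]
        apply mul_le_mul_of_nonneg_right _ (by positivity)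
        exact NP.card_near a (64 * 2^j) (Nat.one_le_iff_ne_zero.mpr (by positivity)) _
      refine (Finset.sum_le_sum hb).trans ?_
      rw [Finset.sum_const, nsmul_eq_mul, ← mul_assoc, ← mul_assoc]
      apply mul_le_mul_of_nonneg_right _ (by positivity)
      rw [mul_assoc, mul_comm]
      rw [mul_comm]
      apply mul_le_mul_of_nonneg_right _ (by positivity)
      have : (Rg m c j) ⊆ (PP m).filter (fun a => dst c a ≤ 4 * (64 * 2^j : ℕ)) := by
        intro a ha
        unfold Rg at ha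
        rw [Finset.mem_filter] at ha ⊢
        refine ⟨ha.1, ?_⟩
        push_cast
        linarith [ha.2.2]
      refine le_trans ?_ (NP.card_near c (64 * 2^j) (Nat.one_le_iff_ne_zero.mpr (by positivity)) (PP m))
      exact_mod_cast Finset.card_le_card this
    · simp only [if_neg hjR, Finset.sum_const_zero, le_refl]
  calc _ ≤ ∑ a ∈ Rg m c j, ∑ b ∈ boxE (4 * m),
      ((if b ≠ a then ind (dst a b ≤ 2) * PQ q (boxE (4 * m)) (SD (cn c) a b) else 0) +
      ∑ k ∈ range (j + 1), (if 2 * 2^k ≤ R then (if b ≠ a then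
        ind (2 * 2^k < dst a b ∧ dst a b ≤ 4 * 2^k) *
          PQ q (boxE (4 * m)) (SD (cn c) a b) else 0) else 0) +
      (if 2^j ≤ R then (if dst a b ≤ 4 * (64 * 2^j : ℕ) then a4 q (2^j) ^ 3 else 0) else 0)) :=
        Finset.sum_le_sum fun a ha => Finset.sum_le_sum fun b hb => hpt a ha b hb
    _ = ∑ a ∈ Rg m c j, ∑ b ∈ boxE (4 * m),
        (if b ≠ a then ind (dst a b ≤ 2) * PQ q (boxE (4 * m)) (SD (cn c) a b) else 0) +
        ∑ k ∈ range (j + 1), ∑ a ∈ Rg m c j, ∑ b ∈ boxE (4 * m),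
      (if 2 * 2^k ≤ R then (if b ≠ a then ind (2 * 2^k < dst a b ∧ dst a b ≤ 4 * 2^k) *
          PQ q (boxE (4 * m)) (SD (cn c) a b) else 0) else 0) +
        ∑ a ∈ Rg m c j, ∑ b ∈ boxE (4 * m),
      (if 2^j ≤ R then (if dst a b ≤ 4 * (64 * 2^j : ℕ) then a4 q (2^j) ^ 3 else 0) else 0) := by
        simp only [Finset.sum_add_distrib]
        congr 2
        rw [Finset.sum_comm]
        rw [Finset.sum_comm (s := range (j + 1)) (t := Rg m c j)]
        rw [Finset.sum_comm]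
        apply Finset.sum_congr rfl
        intro a _
        rw [Finset.sum_comm]
    _ ≤ _ := add_le_add (add_le_add s1 (Finset.sum_le_sum s2)) s3

end Pool.Agent.Y492.AL
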