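import Pool.Agent.H973R3.NC.Defs
import Pool.Agent.H974R2.Infinite

/-!
# Project AL: the cluster density of bond percolation on `ℤ²` near the critical point
(the upper half of `α = -2/3`, MP_5f99b0_pr). Definitions and statements.
-/

namespace Pool.Agent.Y492.AL

open H974 H12S H973N Finset

/-- The ends of `e` are joined by open edges of `F` other than `e`. -/
def cn (e : Edg) (F : Finset Edg) : Prop := Reach (↑(F.erase e) : Set Edg) (src e) (tgt e)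

/-- The number of classes of vertices of `V` for the connection by edges of `F`. -/
noncomputable def ncl (V : Finset Vtx) (F : Finset Edg) : ℕ :=
  Set.ncard ((fun v : Vtx => {w : Vtx | Reach (↑F : Set Edg) v w}) '' (↑V : Set Vtx))

/-! ## B: graph theory -/

/-- Adding an edge. -/
def S_K1 : Prop := ∀ (V : Finset Vtx) (F : Finset Edg) (e : Edg), src e ∈ V → tgt e ∈ V → e ∉ F →
  (¬ Reach (↑F : Set Edg) (src e) (tgt e) → ncl V F = ncl V (insert e F) + 1) ∧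
  (Reach (↑F : Set Edg) (src e) (tgt e) → ncl V F = ncl V (insert e F))

/-- Symmetry of the first and second differences of the connection of the ends. -/
def S_SYM : Prop := (∀ (e f : Edg) (F : Finset Edg), e ≠ f → (Pf (cn e) f F ↔ Pf (cn f) e F)) ∧
  (∀ (e f g : Edg) (F : Finset Edg), e ≠ f → f ≠ g → e ≠ g →
    ((SD (cn e) f g F ↔ SD (cn f) e g F) ∧ (SD (cn e) f g F ↔ SD (cn e) g f F)))

/-! ## F, G: real analysis -/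

/-- From the bounds for the derivatives of the approximations to the expansion of the limit. -/
def S_ANA : Prop := ∀ (h : ℕ → ℝ → ℝ) (g : ℝ → ℝ) (A B : ℕ → ℕ → ℝ → ℝ) (A' : ℕ → ℕ → ℝ → ℝ)
  (C b : ℝ), 0 < C → 0 < b → b ≤ 1/4 →
  (∀ q, 0 ≤ q → q ≤ 1 → 0 ≤ g q ∧ g q ≤ 1) →
  (∀ m : ℕ, 1 ≤ m → ∀ q, 0 ≤ q → q ≤ 1 → |h m q - g q| ≤ C * (m:ℝ) ^ (-(5/4 : ℝ))) →
  (∀ m R : ℕ, 1 ≤ R → R ≤ m → ∀ q, 0 ≤ q → q ≤ 1 → HasDerivAt (h m) (A m R q + B m R q) q) →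
  (∀ m R : ℕ, 1 ≤ R → R ≤ m → ∀ q, 0 ≤ q → q ≤ 1 →
    |B m R q| ≤ C * ((R:ℝ) ^ (-(1/2 : ℝ)) + (m:ℝ) ^ (-(1/4 : ℝ)))) →
  (∀ m R : ℕ, 1 ≤ R → R ≤ m → ∀ q, |q - 1/2| ≤ b * (R:ℝ) ^ (-(3/4 : ℝ)) →
    HasDerivAt (A m R) (A' m R q) q ∧
      |A' m R q| ≤ C * ((R:ℝ) ^ (1/4 : ℝ) + (R:ℝ) ^ 2 * (m:ℝ) ^ (-(1/4 : ℝ)))) →
  ∃ c C' : ℝ, 0 < C' ∧ ∀ t : ℝ, |t| ≤ 1/2 →
    |g (1/2 + t) - g (1/2) - c * t| ≤ C' * |t| ^ (5/3 : ℝ)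

/-- From the expansion of the connection probability to the expansion of the density. -/
def S_TAY : Prop := ∀ (g κ : ℝ → ℝ) (c C' : ℝ), 0 < C' → ContinuousOn g (Set.Icc 0 1) →
  (∀ p, 0 ≤ p → p ≤ 1 → κ p = 1 - ∫ s in (0:ℝ)..p, (2 - g s)) →
  (∀ t : ℝ, |t| ≤ 1/2 → |g (1/2 + t) - g (1/2) - c * t| ≤ C' * |t| ^ (5/3 : ℝ)) →
  (∀ p, 0 < p → p < 1 → HasDerivAt κ (g p - 2) p) ∧ HasDerivAt (deriv κ) c (1/2) ∧
  ∀ p, 0 ≤ p → p ≤ 1 → |κ p - κ (1/2) - deriv κ (1/2) * (p - 1/2)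
    - (1/2) * deriv (deriv κ) (1/2) * (p - 1/2) ^ 2| ≤ C' * |p - 1/2| ^ (8/3 : ℝ)

/-! ## H, I: the expected number of clusters -/

/-- The vertices of the `n × n` box. -/
noncomputable def VB (n : ℕ) : Finset Vtx := Finset.Ico (0:ℤ) n ×ˢ Finset.Ico (0:ℤ) n

/-- Its edges. -/
noncomputable def EB (n : ℕ) : Finset Edg := RE 0 ((n:ℤ) - 1) 0 ((n:ℤ) - 1)

/-- The expected number of clusters in the box. -/
noncomputable def EK (p : ℝ) (n : ℕ) : ℝ := Ex (fun _ => p) (EB n) (fun F => (ncl (VB n) F : ℝ))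

/-- Uniform four-arm bound. -/
def S_A4 : Prop := ∃ C : ℝ, 0 < C ∧ ∀ q : ℝ, 0 ≤ q → q ≤ 1 → ∀ k : ℕ, 1 ≤ k →
  a4 q k ≤ C * (k:ℝ) ^ (-(5/4 : ℝ))

/-- The limit of the local connection probability of the edge `(0, 0, b)`. -/
noncomputable def gl (b : Bool) (q : ℝ) : ℝ := ⨆ n : ℕ, PQ q (boxE n) (cn (e0 b))

/-- Connection probabilities of an edge in any box, compared with the limit. -/
def S_GL : Prop := ∀ C : ℝ, 0 < C → (∀ q : ℝ, 0 ≤ q → q ≤ 1 → ∀ k : ℕ, 1 ≤ k →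
    a4 q k ≤ C * (k:ℝ) ^ (-(5/4 : ℝ))) →
  (∀ b, ContinuousOn (gl b) (Set.Icc 0 1)) ∧
  (∀ b q, 0 ≤ q → q ≤ 1 → 0 ≤ gl b q ∧ gl b q ≤ 1) ∧
  (∀ q : ℝ, 0 ≤ q → q ≤ 1 → ∀ (e : Edg) (k : ℕ) (S : Finset Edg), 1 ≤ k → blk (bp e) k ⊆ S →
    |PQ q S (cn e) - gl e.2.2 q| ≤ C * (k:ℝ) ^ (-(5/4 : ℝ)))

/-- The density: `κ(p) = 1 - ∫_0^p (2 - g)`. -/
noncomputable def kap (p : ℝ) : ℝ := 1 - ∫ s in (0:ℝ)..p, (2 - (gl true s + gl false s))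

/-- The expected number of clusters divided by the area, with a rate. -/
def S_LIM : Prop := S_K1 → S_A4 → S_GL → ∃ C : ℝ, 0 < C ∧ ∀ p : ℝ, 0 ≤ p → p ≤ 1 →
  ∀ n : ℕ, 1 ≤ n → |EK p n / (n:ℝ)^2 - kap p| ≤ C / n

/-- The open clusters of the `n × n` box for the product measure. -/
noncomputable def clusters (n : ℕ) (ω : sqLattice.edgeSet → Bool) : ℕ :=
  Nat.card ((openGraph ω).induce {v : ℤ × ℤ | (0 ≤ v.1 ∧ v.1 < n) ∧ (0 ≤ v.2 ∧ v.2 < n)}).ConnectedComponent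

/-- The expectation of the number of clusters is `EK`. -/
def S_LAW : Prop := ∀ (p : unitInterval) (n : ℕ),
  MeasureTheory.Integrable (fun ω => (clusters n ω : ℝ)) (bondLaw p) ∧
  ∫ ω, (clusters n ω : ℝ) ∂(bondLaw p) = EK p n

/-! ## C: near pairs -/

/-- Near pairs of edges, with frozen open edges `O` outside `S`. -/
def S_CS : Prop := ∀ κ : ℝ, 0 < κ → ∃ C : ℝ, 0 < C ∧ ∀ (q : ℝ) (n : ℕ), Win q κ n →
  ∀ (S : Finset Edg) (I J : Set Vtx) (O : Set Edg), Disjoint O ↑S →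
  ∀ (k j Λ : ℕ), k ≤ j → 1 ≤ Λ → 12 * 2^k ≤ n → ∀ (x0 : ℤ × ℤ) (G : Finset Edg),
  (∀ e ∈ G, |e.1 - x0.1| ≤ Λ * 2^j ∧ |e.2.1 - x0.2| ≤ Λ * 2^j) →
  (∀ e ∈ G, blk (bp e) (24 * 2^k) ⊆ S ∧
    Off (e.1 - 24 * 2^k) (e.1 + 24 * 2^k) (e.2.1 - 24 * 2^k) (e.2.1 + 24 * 2^k) I J) →
  (∑ e ∈ G, ∑ g ∈ S.erase e, ind (2 * 2^k < dst e g ∧ dst e g ≤ 4 * 2^k) *
      PQ q S (SD (CO I J O) e g) ≤ C * Λ * ((16:ℝ)^k * (a4 q (2^k))^2 * 2^(j - k))) ∧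
  (k = 0 → ∑ e ∈ G, ∑ g ∈ S.erase e, ind (dst e g ≤ 2) * PQ q S (SD (CO I J O) e g) ≤
      C * Λ * 2^j)

/-! ## M: the two main estimates -/

/-- Tail of the first derivative. -/
def S_MA : Prop := ∃ C : ℝ, 0 < C ∧ ∀ q : ℝ, 0 ≤ q → q ≤ 1 → ∀ m R : ℕ, 1 ≤ R → R ≤ m →
  ∑ e ∈ boxE m, ∑ f ∈ (boxE (4 * m)).filter (fun f => (R:ℤ) < dst e f),
    PQ q (boxE (4 * m)) (Pf (cn e) f) ≤
      C * (m:ℝ)^2 * ((R:ℝ) ^ (-(1/2 : ℝ)) + (m:ℝ) ^ (-(1/4 : ℝ)))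

/-- The second differences. -/
def S_MB : Prop := ∃ C b : ℝ, 0 < C ∧ 0 < b ∧ b ≤ 1/4 ∧ ∀ m R : ℕ, 1 ≤ R → R ≤ m → ∀ q : ℝ,
  |q - 1/2| ≤ b * (R:ℝ) ^ (-(3/4 : ℝ)) →
  ∑ e ∈ boxE m, ∑ f ∈ (boxE (4 * m)).filter (fun f => f ≠ e ∧ dst e f ≤ R),
    ∑ g ∈ ((boxE (4 * m)).erase e).erase f, PQ q (boxE (4 * m)) (SD (cn e) f g) ≤
      C * (m:ℝ)^2 * ((R:ℝ) ^ (1/4 : ℝ) + (R:ℝ)^2 * (m:ℝ) ^ (-(1/4 : ℝ)))

end Pool.Agent.Y492.AL
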