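import Pool.Agent.Y492.AL.Stm

/-!
# Project AL: assembly statements
-/

namespace Pool.Agent.Y492.AL

open H974 H12S H973N Finset

/-- The expansion of the local connection probabilities at the critical point. -/
def S_EXP : Prop := ∀ b : Bool, ∃ c C' : ℝ, 0 < C' ∧ ∀ t : ℝ, |t| ≤ 1/2 →
  |gl b (1/2 + t) - gl b (1/2) - c * t| ≤ C' * |t| ^ (5/3 : ℝ)

end Pool.Agent.Y492.AL
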